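import Mathlib

set_option autoImplicit false

/-!
# If `det (1 - Y N) = 1` then the traces of the powers of `N` vanish
-/

namespace Pool.Agent.L5helper49.PW

open Matrix Polynomial

section rev

variable {R : Type*} [CommRing R] {n : Type*} [Fintype n] [DecidableEq n]

lemma rev_map {R' : Type*} [CommRing R'] (φ : R →+* R') (M : Matrix n n R) :
    charpolyRev (M.map φ) = (charpolyRev M).map φ := by
  rw [charpolyRev, charpolyRev, ← coe_mapRingHom, RingHom.map_det]
  congr 1
  ext i j : 2
  by_cases h : i = j
  · subst h; simp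
  · simp [h]

lemma rev_add {M N : Matrix n n R} (h : M * N = 0) :
    charpolyRev (M + N) = charpolyRev M * charpolyRev N := by
  rw [charpolyRev, charpolyRev, charpolyRev, ← det_mul]
  congr 1
  have h1 : M.map C * N.map C = (0 : Matrix n n R[X]) := by
    rw [← Matrix.map_mul, h]
    ext i j
    simp
  have h2 : (M + N).map C = M.map C + N.map C := by
    ext i j
    simp
  rw [h2, smul_add, sub_mul, one_mul, mul_sub, mul_one, smul_mul_smul_comm, h1, smul_zero, sub_zero]
  abel

/-- the substitution `Y ↦ Y (1 + s)` -/
noncomputable def stretch : R[X] →+* R[X][X] :=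
  eval₂RingHom (C.comp C) (C (X : R[X]) * (1 + X))

lemma newton (N : Matrix n n R) (h : charpolyRev N = 1) (j : ℕ) : (N ^ (j + 1)).trace = 0 := by
  obtain ⟨N', hN'⟩ : ∃ N' : Matrix n n R[X], N' = N.map C := ⟨_, rfl⟩
  obtain ⟨P, hP⟩ : ∃ P : Matrix n n R[X], P = 1 - (X : R[X]) • N' := ⟨_, rfl⟩
  have hdet : P.det = 1 := by rw [hP, hN', ← h]; rfl
  obtain ⟨G, hG⟩ : ∃ G, G = P.adjugate := ⟨_, rfl⟩
  have hPG : P * G = 1 := by rw [hG, mul_adjugate, hdet, one_smul]
  -- the coefficients of the inverse
  have hGj : ∀ j : ℕ, G.map (fun p => p.coeff j) = N ^ j := by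
    have e1 : G = 1 + (X : R[X]) • (N' * G) := by
      rw [hP, sub_mul, one_mul, smul_mul_assoc, sub_eq_iff_eq_add] at hPG
      exact hPG
    intro j
    induction j with
    | zero =>
      ext a b
      rw [map_apply, e1, Matrix.add_apply, Matrix.smul_apply, smul_eq_mul, coeff_add,
        mul_coeff_zero, coeff_X_zero, zero_mul, add_zero, pow_zero]
      by_cases hab : a = b
      · subst hab; simp
      · simp [hab]
    | succ j ih =>
      ext a b
      rw [map_apply, e1, Matrix.add_apply, Matrix.smul_apply, smul_eq_mul, coeff_add,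
        coeff_X_mul, pow_succ', ← ih, mul_apply, mul_apply, finsetSum_coeff]
      have e2 : ((1 : Matrix n n R[X]) a b).coeff (j + 1) = 0 := by
        by_cases hab : a = b
        · subst hab; simp [coeff_one]
        · simp [hab]
      rw [e2, zero_add]
      apply Finset.sum_congr rfl
      intro c _
      rw [hN', map_apply, map_apply, coeff_C_mul]
  -- the derivative
  have h1 : charpolyRev ((X : R[X]) • (G * N')) = 1 := by
    have e1 : P.map C * (1 - (X : R[X][X]) • ((X : R[X]) • (G * N')).map C) =
        P.map (stretch : R[X] →+* R[X][X]) := by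
      have e2 : P.map C * ((X : R[X]) • (G * N')).map C =
          ((X : R[X]) • N').map (C : R[X] →+* R[X][X]) := by
        rw [← Matrix.map_mul, mul_smul_comm, ← mul_assoc, hPG, one_mul]
      rw [mul_sub, mul_one, mul_smul_comm, e2, hP]
      ext a b : 2
      rw [Matrix.sub_apply, Matrix.smul_apply, map_apply, map_apply, map_apply, Matrix.sub_apply,
        Matrix.smul_apply, map_sub, map_sub, hN', map_apply, smul_eq_mul, smul_eq_mul, map_mul,
        map_mul]
      have e3 : (stretch (X : R[X]) : R[X][X]) = C (X : R[X]) * (1 + X) := by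
        simp [stretch]
      have e4 : (stretch (C (N a b)) : R[X][X]) = C (C (N a b)) := by
        simp [stretch]
      have e5 : (stretch ((1 : Matrix n n R[X]) a b) : R[X][X]) = C ((1 : Matrix n n R[X]) a b) := by
        by_cases hab : a = b
        · subst hab; simp
        · simp [hab]
      rw [e3, e4, e5]
      ring_nf
    have e6 := congrArg Matrix.det e1
    have e7 : (P.map C).det = (1 : R[X][X]) := by
      have := RingHom.map_det (C : R[X] →+* R[X][X]) P
      rw [hdet, map_one] at this
      exact this.symm
    have e8 : (P.map (stretch : R[X] →+* R[X][X])).det = (1 : R[X][X]) := by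
      have := RingHom.map_det (stretch : R[X] →+* R[X][X]) P
      rw [hdet, map_one] at this
      exact this.symm
    rw [det_mul, e7, one_mul, e8] at e6
    exact e6
  have h2 := coeff_charpolyRev_eq_neg_trace (M := (X : R[X]) • (G * N'))
  rw [h1, coeff_one, if_neg one_ne_zero, trace_smul, smul_eq_mul, eq_comm, neg_eq_zero] at h2
  have h3 := congrArg (fun p => coeff p (j + 1)) h2
  simp only [coeff_X_mul, coeff_zero] at h3
  rw [pow_succ, ← hGj j, ← h3, Matrix.trace, Matrix.trace, finsetSum_coeff]
  apply Finset.sum_congr rfl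
  intro a _
  rw [diag_apply, diag_apply, mul_apply, mul_apply, finsetSum_coeff]
  apply Finset.sum_congr rfl
  intro b _
  rw [map_apply, hN', map_apply, coeff_mul_C]

end rev

section field

variable {K : Type*} [Field K] {n : Type*} [Fintype n] [DecidableEq n]

lemma rev_nil {N : Matrix n n K} (h : IsNilpotent N) : charpolyRev N = 1 := by
  have h1 := isUnit_charpolyRev_of_isNilpotent h
  have h2 := Polynomial.natDegree_eq_zero_of_isUnit h1
  rw [eq_C_of_natDegree_eq_zero h2, coeff_zero_eq_eval_zero, eval_charpolyRev, C_1]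

/-- the potential -/
lemma rank_pow (M : Matrix n n K) : (M ^ Fintype.card n).rank = (charpolyRev M).natDegree := by
  obtain ⟨φ, hφ⟩ : ∃ φ : Module.End K (n → K), φ = Matrix.toLin' M := ⟨_, rfl⟩
  have h1 := LinearMap.finrank_maxGenEigenspace_zero_eq φ
  rw [Module.End.maxGenEigenspace_eq_genEigenspace_finrank, Module.End.genEigenspace_nat,
    Module.finrank_fintype_fun_eq_card, zero_smul, sub_zero, hφ, Matrix.charpoly_toLin'] at h1
  have h2 := LinearMap.finrank_range_add_finrank_ker (Matrix.toLin' M ^ Fintype.card n)
  rw [h1, Module.finrank_fintype_fun_eq_card, ← Matrix.toLin'_pow] at h2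
  have h3 : (M ^ Fintype.card n).rank =
      Module.finrank K (LinearMap.range (Matrix.toLin' (M ^ Fintype.card n))) := by
    rw [Matrix.rank, Matrix.toLin'_apply']
  rw [h3, ← reverse_charpoly, reverse_natDegree, charpoly_natDegree_eq_dim]
  omega

/-- the top coefficient of a power -/
lemma top_coeff (N Z : Matrix n n K) (d : ℕ) (i j : n) :
    (((N.map C + (X : K[X]) • Z.map C) ^ d) i j).natDegree ≤ d ∧
      (((N.map C + (X : K[X]) • Z.map C) ^ d) i j).coeff d = (Z ^ d) i j := by
  induction d generalizing i j with
  | zero =>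
    rw [pow_zero, pow_zero]
    by_cases hij : i = j
    · subst hij; simp
    · simp [hij]
  | succ d ih =>
    have h1 : ∀ c, ((N.map C + (X : K[X]) • Z.map C) c j).natDegree ≤ 1 := by
      intro c
      rw [Matrix.add_apply, Matrix.smul_apply, map_apply, map_apply, smul_eq_mul]
      refine (natDegree_add_le _ _).trans (max_le ?_ ?_)
      · rw [natDegree_C]
        exact Nat.zero_le _
      · exact (natDegree_mul_C_le _ _).trans natDegree_X_le
    have h2 : ∀ c, ((N.map C + (X : K[X]) • Z.map C) c j).coeff 1 = Z c j := by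
      intro c
      rw [Matrix.add_apply, Matrix.smul_apply, map_apply, map_apply, smul_eq_mul, coeff_add,
        coeff_C, if_neg one_ne_zero, zero_add, coeff_X_mul, coeff_C_zero]
    rw [pow_succ, pow_succ, mul_apply, mul_apply]
    constructor
    · refine natDegree_sum_le_of_forall_le _ _ fun c _ => ?_
      exact natDegree_mul_le_of_le (ih i c).1 (h1 c)
    · rw [finsetSum_coeff]
      apply Finset.sum_congr rfl
      intro c _
      rw [coeff_mul_add_eq_of_natDegree_le (ih i c).1 (h1 c), (ih i c).2, h2]

end field

end Pool.Agent.L5helper49.PW
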