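import Pool.Agent.L5helper49.PW.Opt

set_option autoImplicit false

/-!
# Powers of all elements from powers of few elements
-/

namespace Pool.Agent.L5helper49.PW

open Matrix

variable {K : Type*} [Field K] {n : Type*} [Fintype n] [DecidableEq n]
variable {σ : Type*} [Fintype σ]

lemma totalDegree_pow_entry (G : Matrix n n (MvPolynomial σ K))
    (hG : ∀ i j, (G i j).totalDegree ≤ 1) (c : ℕ) (i j : n) : ((G ^ c) i j).totalDegree ≤ c := by
  induction c generalizing i j with
  | zero =>
    rw [pow_zero, Matrix.one_apply]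
    split_ifs <;> simp
  | succ c ih =>
    rw [pow_succ, mul_apply]
    refine (MvPolynomial.totalDegree_finsetSum _ _).trans (Finset.sup_le ?_)
    intro l _
    exact (MvPolynomial.totalDegree_mul _ _).trans (add_le_add (ih _ _) (hG _ _))

/-- If the powers of all combinations with few coefficients are in a subspace, then all powers
are. -/
lemma pow_test [DecidableEq σ] (c : ℕ) (A : σ → Matrix n n K) (T : Finset K)
    (hT : c < T.card) (𝓛 : Submodule K (Matrix n n K))
    (h : ∀ z : σ → K, (∀ l, z l = 0 ∨ z l ∈ T) → (∃ s : Finset σ, s.card ≤ c ∧ ∀ l ∉ s, z l = 0) →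
      cmb A z ^ c ∈ 𝓛) (z : σ → K) : cmb A z ^ c ∈ 𝓛 := by
  have key : ∀ ψ : Matrix n n K →ₗ[K] K, (∀ M ∈ 𝓛, ψ M = 0) → ψ (cmb A z ^ c) = 0 := by
    intro ψ hψ
    obtain ⟨p, hp⟩ : ∃ p : MvPolynomial σ K, p = ∑ i, ∑ j,
      MvPolynomial.C (ψ (Matrix.single i j 1)) * (gen A 0 ^ c) i j := ⟨_, rfl⟩
    have hev : ∀ w : σ → K, MvPolynomial.eval w p = ψ (cmb A w ^ c) := by
      intro w
      have e1 : (gen A 0 ^ c).map (MvPolynomial.eval w) = cmb A w ^ c := by
        have := map_pow ((MvPolynomial.eval w).mapMatrix :
          Matrix n n (MvPolynomial σ K) →+* Matrix n n K) (gen A 0) c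
        rw [RingHom.mapMatrix_apply, RingHom.mapMatrix_apply, gen_eval] at this
        rw [this]
        simp
      rw [hp, map_sum, Matrix.matrix_eq_sum_single (cmb A w ^ c), map_sum]
      apply Finset.sum_congr rfl
      intro i _
      rw [map_sum, map_sum]
      apply Finset.sum_congr rfl
      intro j _
      rw [map_mul, MvPolynomial.eval_C, ← e1, map_apply,
        ← mul_one (MvPolynomial.eval w ((gen A 0 ^ c) i j)), ← smul_eq_mul (a :=
          MvPolynomial.eval w ((gen A 0 ^ c) i j)) (b := (1 : K)), ← Matrix.smul_single, map_smul,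
        smul_eq_mul, smul_eq_mul, mul_one, mul_comm]
    have hdeg1 : ∀ i j, (gen A 0 i j).totalDegree ≤ 1 := by
      intro i j
      rw [gen, Matrix.add_apply, Matrix.sum_apply, Matrix.map_apply]
      refine (MvPolynomial.totalDegree_add _ _).trans (max_le ?_ ?_)
      · rw [MvPolynomial.totalDegree_C]
        exact Nat.zero_le _
      · refine (MvPolynomial.totalDegree_finsetSum _ _).trans (Finset.sup_le ?_)
        intro l _
        rw [Matrix.smul_apply, Matrix.map_apply, smul_eq_mul]
        refine (MvPolynomial.totalDegree_mul _ _).trans ?_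
        rw [MvPolynomial.totalDegree_C, MvPolynomial.totalDegree_X]
    have hdeg : p.totalDegree ≤ c := by
      rw [hp]
      refine (MvPolynomial.totalDegree_finsetSum _ _).trans (Finset.sup_le fun i _ => ?_)
      refine (MvPolynomial.totalDegree_finsetSum _ _).trans (Finset.sup_le fun j _ => ?_)
      refine (MvPolynomial.totalDegree_mul _ _).trans ?_
      rw [MvPolynomial.totalDegree_C, zero_add]
      exact totalDegree_pow_entry _ hdeg1 c i j
    have hp0 : p = 0 := by
      ext m
      rw [MvPolynomial.coeff_zero]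
      by_cases hm : m.degree ≤ c
      · refine coeff_eq_zero_of_grid m.support p (fun _ => T) c hdeg (fun _ => hT) ?_ m
          (fun l hl => Finsupp.notMem_support_iff.1 hl)
        intro w hw
        rw [hev]
        apply hψ
        apply h
        · intro l
          split_ifs
          · exact Or.inr (hw l)
          · exact Or.inl rfl
        · refine ⟨m.support, (card_support m).trans hm, fun l hl => ?_⟩
          rw [if_neg hl]
      · apply MvPolynomial.coeff_eq_zero_of_totalDegree_lt
        rw [← Finsupp.degree_apply]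
        omega
    rw [← hev, hp0, map_zero]
  by_contra hcon
  have h1 : 𝓛.mkQ (cmb A z ^ c) ≠ 0 := by
    rw [Submodule.mkQ_apply, Ne, Submodule.Quotient.mk_eq_zero]
    exact hcon
  apply h1
  rw [← Module.forall_dual_apply_eq_zero_iff K]
  intro φ
  exact key (φ ∘ₗ 𝓛.mkQ) fun M hM => by
    rw [LinearMap.comp_apply, Submodule.mkQ_apply, (Submodule.Quotient.mk_eq_zero 𝓛).2 hM, map_zero]

end Pool.Agent.L5helper49.PW
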