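import Pool.Agent.L5helper49.PW.Alg
import Pool.Agent.L5helper49.PW.Test

set_option autoImplicit false

/-!
# Correctness of the algorithm
-/

namespace Pool.Agent.L5helper49.PW

open Module Submodule Function
open Pool.Agent.Lib.CX Pool.Agent.Lib.helper22.CXDet
open Pool.Agent.Lib.Par (rk rk_eq pt_rk ls_opt)
open Pool.Agent.L5helper60.SR (Inp dim mat ent cden ient ient_cast cden_ne mat_apply rank_smul'
  rank_add_ker det_eq_zero_iff)

/-- the rows of a table as vectors -/
def rw' (w : ℕ) (f : ℕ → ℕ → ℤ) (r : ℕ) : Fin w → ℚ := fun s => f r s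

theorem grk_span (m w : ℕ) (f : ℕ → ℕ → ℤ) :
    grk m w f = finrank ℚ (span ℚ (rw' w f '' Set.Iio m)) := by
  rw [grk_eq, Matrix.rank_eq_finrank_span_row]
  have e : rw' w f '' Set.Iio m =
      Set.range (Matrix.of fun (i : Fin m) (j : Fin w) => (f i j : ℚ)).row := by
    ext x
    constructor
    · rintro ⟨r, hr, rfl⟩
      exact ⟨⟨r, hr⟩, rfl⟩
    · rintro ⟨r, rfl⟩
      exact ⟨r, r.2, rfl⟩
  rw [e]

theorem grk_succ (k w : ℕ) (f : ℕ → ℕ → ℤ) :
    grk (k + 1) w f ≤ grk k w f ↔ rw' w f k ∈ span ℚ (rw' w f '' Set.Iio k) := by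
  rw [grk_span, grk_span]
  have e : Set.Iio (k + 1) = insert k (Set.Iio k) := by
    ext x
    simp only [Set.mem_Iio, Set.mem_insert_iff]
    omega
  rw [e, Set.image_insert_eq, span_insert]
  constructor
  · intro h
    have h1 := eq_of_le_of_finrank_le (le_sup_right :
      span ℚ (rw' w f '' Set.Iio k) ≤ span ℚ {rw' w f k} ⊔ span ℚ (rw' w f '' Set.Iio k)) h
    rw [h1]
    exact mem_sup_left (mem_span_singleton_self _)
  · intro h
    rw [sup_eq_right.2 (span_le.2 (Set.singleton_subset_iff.2 h))]

/-! ### The block matrix -/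

section block

variable {K : Type*} [Field K] {n : ℕ}

/-- the block matrix -/
def Bk (M : Matrix (Fin n) (Fin n) K) : Matrix (Fin n × Fin n) (Fin n × Fin n) K :=
  Matrix.of fun p q => if p.1 = q.1 then M p.2 q.2
    else if (q.1 : ℕ) = p.1 + 1 then (if p.2 = q.2 then 1 else 0) else 0

/-- the parts of a vector -/
def prt (v : Fin n × Fin n → K) (a : ℕ) : Fin n → K := fun s => if h : a < n then v (⟨a, h⟩, s) else 0

lemma Bk_mulVec (M : Matrix (Fin n) (Fin n) K) (v : Fin n × Fin n → K) (a : Fin n) (s : Fin n) :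
    (Bk M).mulVec v (a, s) = M.mulVec (prt v a) s + prt v (a + 1) s := by
  rw [Matrix.mulVec, dotProduct, Fintype.sum_prod_type]
  have h1 : ∀ b : Fin n, ∑ t, Bk M (a, s) (b, t) * v (b, t) =
      (if a = b then M.mulVec (prt v a) s else 0) +
        (if (b : ℕ) = a + 1 then prt v (a + 1) s else 0) := by
    intro b
    by_cases h2 : a = b
    · subst h2
      rw [if_pos rfl, if_neg (by omega), add_zero, Matrix.mulVec, dotProduct]
      apply Finset.sum_congr rfl
      intro t _
      simp [Bk, prt]
    · rw [if_neg h2, zero_add]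
      by_cases h3 : (b : ℕ) = a + 1
      · rw [if_pos h3]
        have h4 : ∀ t, Bk M (a, s) (b, t) * v (b, t) = if s = t then v (b, t) else 0 := by
          intro t
          simp only [Bk, Matrix.of_apply, h2, h3, if_false, if_true]
          split_ifs <;> simp
        rw [Finset.sum_congr rfl fun t _ => h4 t, Finset.sum_ite_eq, if_pos (Finset.mem_univ _)]
        have h5 : (a : ℕ) + 1 < n := by rw [← h3]; exact b.2
        rw [prt, dif_pos h5]
        congr 2
        exact Fin.ext h3
      · rw [if_neg h3]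
        apply Finset.sum_eq_zero
        intro t _
        simp [Bk, h2, h3]
  rw [Finset.sum_congr rfl fun b _ => h1 b, Finset.sum_add_distrib, Finset.sum_ite_eq,
    if_pos (Finset.mem_univ _)]
  congr 1
  by_cases h2 : (a : ℕ) + 1 < n
  · rw [Finset.sum_eq_single ⟨a + 1, h2⟩]
    · rw [if_pos rfl]
    · intro b _ hb
      rw [if_neg]
      intro h3
      exact hb (Fin.ext h3)
    · intro h
      exact absurd (Finset.mem_univ _) h
  · rw [Finset.sum_eq_zero, prt, dif_neg h2]
    intro b _
    rw [if_neg]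
    omega

/-- the orbit of a vector -/
noncomputable def orb (M : Matrix (Fin n) (Fin n) K) : (Fin n → K) →ₗ[K] (Fin n × Fin n → K) where
  toFun u p := ((-M) ^ (p.1 : ℕ)).mulVec u p.2
  map_add' u v := by
    funext p
    rw [Matrix.mulVec_add]
    rfl
  map_smul' c u := by
    funext p
    rw [Matrix.mulVec_smul]
    rfl

lemma orb_prt (M : Matrix (Fin n) (Fin n) K) (u : Fin n → K) (h : ((-M) ^ n).mulVec u = 0) (a : ℕ) :
    a ≤ n → prt (orb M u) a = ((-M) ^ a).mulVec u := by
  intro ha
  funext s
  rw [prt]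
  split_ifs with h1
  · rfl
  · have : a = n := by omega
    rw [this, h]
    rfl

lemma ker_Bk (M : Matrix (Fin n) (Fin n) K) :
    LinearMap.ker (Bk M).mulVecLin = (LinearMap.ker (M ^ n).mulVecLin).map (orb M) := by
  have hneg : ∀ u, ((-M) ^ n).mulVec u = 0 ↔ (M ^ n).mulVec u = 0 := by
    intro u
    rcases neg_one_pow_eq_or (R := Matrix (Fin n) (Fin n) K) n with h | h
    · rw [neg_pow, h, one_mul]
    · rw [neg_pow, h, neg_one_mul, Matrix.neg_mulVec, neg_eq_zero]
  ext v
  constructor
  · intro hv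
    have h1 : ∀ a < n, prt v (a + 1) = (-M).mulVec (prt v a) := by
      intro a ha
      funext s
      have h2 := congrFun hv (⟨a, ha⟩, s)
      rw [Matrix.mulVecLin_apply, Bk_mulVec] at h2
      rw [Matrix.neg_mulVec]
      exact eq_neg_of_add_eq_zero_right h2
    have h2 : ∀ a ≤ n, prt v a = ((-M) ^ a).mulVec (prt v 0) := by
      intro a
      induction a with
      | zero => intro _; simp
      | succ a ih =>
        intro ha
        rw [h1 a (by omega), ih (by omega), Matrix.mulVec_mulVec, ← pow_succ']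
    refine ⟨prt v 0, ?_, ?_⟩
    · show (M ^ n).mulVec _ = 0
      rw [← hneg, ← h2 n le_rfl]
      funext s
      rw [prt, dif_neg (lt_irrefl n)]
      rfl
    · funext p
      have h3 := congrFun (h2 p.1 p.1.2.le) p.2
      rw [prt, dif_pos p.1.2] at h3
      exact h3.symm
  · rintro ⟨u, hu, rfl⟩
    have hu' : ((-M) ^ n).mulVec u = 0 := (hneg u).2 hu
    funext p
    obtain ⟨a, s⟩ := p
    rw [Matrix.mulVecLin_apply, Bk_mulVec, orb_prt M u hu' _ a.2.le, orb_prt M u hu' _ a.2,
      pow_succ', ← Matrix.mulVec_mulVec, Matrix.neg_mulVec, Pi.neg_apply, add_neg_cancel]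
    rfl

lemma rank_Bk (M : Matrix (Fin n) (Fin n) K) : (Bk M).rank + n = n * n + (M ^ n).rank := by
  have h1 := (Bk M).mulVecLin.finrank_range_add_finrank_ker
  rw [Module.finrank_fintype_fun_eq_card, Fintype.card_prod, Fintype.card_fin, ker_Bk] at h1
  have h2 := (M ^ n).mulVecLin.finrank_range_add_finrank_ker
  rw [Module.finrank_fin_fun] at h2
  have h3 : finrank K ((LinearMap.ker (M ^ n).mulVecLin).map (orb M)) =
      finrank K (LinearMap.ker (M ^ n).mulVecLin) := by
    have hinj : Injective (orb M) := by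
      rcases Nat.eq_zero_or_pos n with h0 | h0
      · subst h0
        intro u v _
        exact Subsingleton.elim _ _
      · intro u v huv
        funext s
        have h4 := congrFun huv (⟨0, h0⟩, s)
        simpa [orb] using h4
    exact (Submodule.equivMapOfInjective (orb M) hinj _).finrank_eq.symm
  rw [h3] at h1
  rw [Matrix.rank, Matrix.rank]
  omega

end block

/-! ### The values -/

/-- The matrix `y₀ A₀ + y₁ A₁ + …`. -/
def lval (L : Inp) (y : ℕ → ℚ) : Matrix (Fin (dim L)) (Fin (dim L)) ℚ :=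
  ∑ i ∈ Finset.range L.length, y i • mat L i

/-- The polynomial matrix `x₀ A₀ + x₁ A₁ + …`. -/
noncomputable def lpol (L : Inp) : Matrix (Fin (dim L)) (Fin (dim L)) (MvPolynomial ℕ ℚ) :=
  ∑ i ∈ Finset.range L.length,
    (MvPolynomial.X i : MvPolynomial ℕ ℚ) • (mat L i).map MvPolynomial.C

lemma lpol_map (L : Inp) (y : ℕ → ℚ) : (lpol L).map (MvPolynomial.eval y) = lval L y := by
  ext s t
  simp [lpol, lval, Matrix.sum_apply]

lemma eval_ldet (L : Inp) (y : ℕ → ℚ) : MvPolynomial.eval y (lpol L).det = (lval L y).det := by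
  rw [RingHom.map_det, ← lpol_map]
  rfl

/-- the values given by a list -/
def vl (x : List ℕ) (i : ℕ) : ℚ := (x.getD i 0 : ℕ)

lemma e1_cast (L : Inp) (x : List ℕ) (s t : Fin (dim L)) :
    (e1 L x s t : ℚ) = ((cden L : ℚ) • lval L (vl x)) s t := by
  rw [e1, ← List.sum_toFinset _ List.nodup_range, List.toFinset_range, Matrix.smul_apply, lval,
    Matrix.sum_apply, smul_eq_mul, Finset.mul_sum]
  push_cast
  apply Finset.sum_congr rfl
  intro i _
  rw [ient_cast, Matrix.smul_apply, mat_apply, smul_eq_mul, vl]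
  ring

lemma ps_eq (L : Inp) (x : List ℕ) :
    ps L x + dim L = dim L * dim L + (lval L (vl x) ^ dim L).rank := by
  have h1 := rank_Bk ((cden L : ℚ) • lval L (vl x))
  rw [smul_pow, rank_smul' (pow_ne_zero _ (cden_ne L))] at h1
  rw [← h1, ps, grk_eq]
  congr 1
  have h2 : (Matrix.of fun (i j : Fin (dim L * dim L)) => (bk L x i j : ℚ)) =
      (Bk ((cden L : ℚ) • lval L (vl x))).submatrix finProdFinEquiv.symm finProdFinEquiv.symm := by
    ext i j
    rw [Matrix.of_apply, Matrix.submatrix_apply]
    obtain ⟨⟨a, s⟩, rfl⟩ := finProdFinEquiv.surjective i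
    obtain ⟨⟨b, t⟩, rfl⟩ := finProdFinEquiv.surjective j
    rw [Equiv.symm_apply_apply, Equiv.symm_apply_apply]
    have hpos : 0 < dim L := lt_of_le_of_lt (Nat.zero_le _) s.2
    have hd : ∀ a s : Fin (dim L), (finProdFinEquiv (a, s) : ℕ) / dim L = a := by
      intro a s
      rw [finProdFinEquiv_apply_val]
      simp only
      rw [Nat.add_mul_div_left _ _ hpos, Nat.div_eq_of_lt s.2, zero_add]
    have hm : ∀ a s : Fin (dim L), (finProdFinEquiv (a, s) : ℕ) % dim L = s := by
      intro a s
      rw [finProdFinEquiv_apply_val]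
      simp only
      rw [Nat.add_mul_mod_self_left, Nat.mod_eq_of_lt s.2]
    rw [bk, hd, hd, hm, hm, Bk, Matrix.of_apply, ← e1_cast]
    simp only [Fin.ext_iff]
    split_ifs <;> simp
  rw [h2, Matrix.rank_submatrix]

/-! ### Correctness -/

/-- The span of the matrices. -/
def spn (L : Inp) : Submodule ℚ (Matrix (Fin (dim L)) (Fin (dim L)) ℚ) :=
  span ℚ (Set.range fun i : Fin L.length => mat L i)

/-- The span of the matrices is closed under `X ↦ X ^ m`. -/
def Closed (m : ℕ) (L : Inp) : Prop := ∀ X ∈ spn L, X ^ m ∈ spn L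

lemma lval_cmb (L : Inp) (y : ℕ → ℚ) :
    lval L y = cmb (fun i : Fin L.length => mat L i) fun i => y i := by
  rw [lval, cmb, Finset.sum_range]

/-- all lists with few changes are neighbours -/
lemma mem_nbr (d : ℕ) (L : Inp) (c : ℕ) (x : List ℕ) (hx : x.length = L.length) :
    ∀ y : List ℕ, y.length = L.length →
      (∀ l, y.getD l 0 ≠ x.getD l 0 → y.getD l 0 ≤ nb d L) →
      (∃ s : Finset ℕ, s.card ≤ c ∧ ∀ l ∉ s, y.getD l 0 = x.getD l 0) → y ∈ nbr d L c x := by
  have heq : ∀ y : List ℕ, y.length = L.length → (∀ l, y.getD l 0 = x.getD l 0) → y = x := by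
    intro y hy h
    apply List.ext_getElem (by rw [hy, hx])
    intro l h1 h2
    have h3 := h l
    rwa [List.getD_eq_getElem _ _ h1, List.getD_eq_getElem _ _ h2] at h3
  induction c with
  | zero =>
    rintro y hy h1 ⟨s, hs, h2⟩
    rw [nbr, List.mem_singleton]
    apply heq y hy
    intro l
    apply h2
    rw [Finset.card_eq_zero.1 (Nat.le_zero.1 hs)]
    exact Finset.notMem_empty _
  | succ c ih =>
    rintro y hy h1 ⟨s, hs, h2⟩
    by_cases h3 : ∀ l, y.getD l 0 = x.getD l 0
    · rw [heq y hy h3, nbr, List.mem_flatMap]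
      refine ⟨x, ih x hx (fun l hl => absurd rfl hl) ⟨∅, by simp, fun _ _ => rfl⟩, ?_⟩
      exact List.mem_cons_self
    · push Not at h3
      obtain ⟨l, hl⟩ := h3
      have hll : l < L.length := by
        by_contra h4
        apply hl
        rw [List.getD_eq_default _ _ (by omega), List.getD_eq_default _ _ (by omega)]
      have hls : l ∈ s := by
        by_contra h4
        exact hl (h2 l h4)
      have hget : ∀ k, (y.set l (x.getD l 0)).getD k 0 = if k = l then x.getD l 0
          else y.getD k 0 := by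
        intro k
        by_cases hk : k = l
        · rw [if_pos hk, hk, List.getD_eq_getElem?_getD, List.getElem?_set_self (by omega)]
          rfl
        · rw [if_neg hk, List.getD_eq_getElem?_getD, List.getElem?_set_ne (Ne.symm hk),
            ← List.getD_eq_getElem?_getD]
      rw [nbr, List.mem_flatMap]
      refine ⟨y.set l (x.getD l 0), ih _ (by simp [hy]) ?_ ⟨s.erase l, ?_, ?_⟩, ?_⟩
      · intro k hk
        rw [hget] at hk ⊢
        split_ifs at hk ⊢ with h4
        · exact absurd (by rw [h4]) hk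
        · exact h1 k hk
      · rw [Finset.card_erase_of_mem hls]
        omega
      · intro k hk
        rw [hget]
        split_ifs with h4
        · rw [h4]
        · apply h2
          intro h5
          exact hk (Finset.mem_erase.2 ⟨h4, h5⟩)
      · refine List.mem_cons_of_mem _ (List.mem_flatMap.2 ⟨l, List.mem_range.2 hll, ?_⟩)
        refine List.mem_map.2 ⟨y.getD l 0, List.mem_range.2 (Nat.lt_succ_of_le (h1 l hl)), ?_⟩
        rw [List.set_set, List.getD_eq_getElem _ _ (by omega)]
        exact List.set_getElem_self _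

/-- the same for functions -/
lemma exists_nbr (d : ℕ) (L : Inp) (c : ℕ) (x : List ℕ) (hx : x.length = L.length)
    (y : Fin L.length → ℚ)
    (h1 : ∀ l, y l = vl x l ∨ y l ∈ (Finset.range (nb d L + 1)).image fun v : ℕ => (v : ℚ))
    (h2 : ∃ s : Finset (Fin L.length), s.card ≤ c ∧ ∀ l ∉ s, y l = vl x l) :
    ∃ z ∈ nbr d L c x, ∀ l : Fin L.length, vl z l = y l := by
  classical
  have h3 : ∀ l : Fin L.length, ∃ v : ℕ, (v : ℚ) = y l ∧ (y l = vl x l → v = x.getD l 0) ∧
      (v ≠ x.getD l 0 → v ≤ nb d L) := by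
    intro l
    by_cases h4 : y l = vl x l
    · refine ⟨x.getD l 0, ?_, fun _ => rfl, fun h => absurd rfl h⟩
      rw [h4, vl]
    · obtain ⟨v, hv, hv'⟩ := Finset.mem_image.1 ((h1 l).resolve_left h4)
      exact ⟨v, hv', fun h => absurd h h4, fun _ => Nat.lt_succ_iff.1 (Finset.mem_range.1 hv)⟩
  choose v hv1 hv2 hv3 using h3
  obtain ⟨s, hs, hs'⟩ := h2
  have hget : ∀ l : Fin L.length, (List.ofFn v).getD l 0 = v l := by
    intro l
    rw [List.getD_eq_getElem _ _ (by rw [List.length_ofFn]; exact l.2), List.getElem_ofFn]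
  refine ⟨List.ofFn v, mem_nbr d L c x hx _ (by rw [List.length_ofFn]) ?_
    ⟨s.image (fun l : Fin L.length => l.val), Finset.card_image_le.trans hs, ?_⟩, ?_⟩
  · intro l hl
    by_cases h5 : l < L.length
    · have h6 := hget ⟨l, h5⟩
      simp only at h6
      rw [h6] at hl ⊢
      exact hv3 _ hl
    · exfalso
      apply hl
      rw [List.getD_eq_default _ _ (by rw [List.length_ofFn]; omega),
        List.getD_eq_default _ _ (by omega)]
  · intro l hl
    by_cases h5 : l < L.length
    · have h6 := hget ⟨l, h5⟩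
      simp only at h6
      rw [h6]
      refine hv2 _ (hs' _ ?_)
      intro h7
      exact hl (Finset.mem_image.2 ⟨_, h7, rfl⟩)
    · rw [List.getD_eq_default _ _ (by rw [List.length_ofFn]; omega),
        List.getD_eq_default _ _ (by omega)]
  · intro l
    rw [vl, hget, hv1]

theorem Closed.all {d : ℕ} (hd : 1 ≤ d) {L : Inp} (h : Closed (d + 1) L)
    (h0 : (lval L (vl (sol d L))).det = 0) (y : ℕ → ℚ) : (lval L y).det = 0 := by
  have o := ls_opt (nbr d L d) (ps L) (List.replicate L.length 0) (K := nb d L) fun x => by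
    have h1 := ps_eq L x
    have h2 := Matrix.rank_le_width (lval L (vl x) ^ dim L)
    unfold nb
    omega
  have hl := (sol_inv d L (nb d L) _ rfl).1
  change ∀ y ∈ nbr d L d (sol d L), _ ≤ ps L (sol d L) at o
  change (sol d L).length = _ at hl
  rw [lval_cmb] at h0 ⊢
  refine main d hd (fun i : Fin L.length => mat L i) h (fun i : Fin L.length => vl (sol d L) i)
    ((Finset.range (nb d L + 1)).image fun v : ℕ => (v : ℚ)) ?_ ?_ h0 _
  · rw [Finset.card_image_of_injective _ Nat.cast_injective, Finset.card_range, Fintype.card_fin]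
    unfold nb
    nlinarith
  · intro w h1 h2
    obtain ⟨z, hz, hzw⟩ := exists_nbr d L d (sol d L) hl w h1 h2
    have h4 := o z hz
    have p1 := ps_eq L (sol d L)
    have p2 := ps_eq L z
    rw [lval_cmb] at p1 p2
    rw [show (fun i : Fin L.length => vl z i) = w from funext hzw] at p2
    rw [Fintype.card_fin]
    omega

theorem Closed.singular {d : ℕ} (hd : 1 ≤ d) {L : Inp} (h : Closed (d + 1) L) :
    (lpol L).det = 0 ↔ (lval L (vl (sol d L))).det = 0 := by
  constructor
  · intro h1
    rw [← eval_ldet, h1, map_zero]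
  · intro h1
    apply MvPolynomial.funext
    intro y
    rw [eval_ldet, map_zero]
    exact h.all hd h1 y

/-! ### The test -/

/-- matrices as vectors -/
def vec (n : ℕ) : Matrix (Fin n) (Fin n) ℚ →ₗ[ℚ] (Fin (n * n) → ℚ) where
  toFun M c := M c.divNat c.modNat
  map_add' _ _ := rfl
  map_smul' _ _ := rfl

lemma vec_inj (n : ℕ) : Injective (vec n) := by
  intro M N h
  ext s t
  have h1 : M (finProdFinEquiv (s, t)).divNat (finProdFinEquiv (s, t)).modNat =
      N (finProdFinEquiv (s, t)).divNat (finProdFinEquiv (s, t)).modNat :=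
    congrFun h (finProdFinEquiv (s, t))
  have h2 := finProdFinEquiv.symm_apply_apply (s, t)
  rw [finProdFinEquiv_symm_apply, Prod.mk.injEq] at h2
  rw [h2.1, h2.2] at h1
  exact h1

lemma pw_cast (L : Inp) (x : List ℕ) (c : ℕ) (s t : Fin (dim L)) :
    (pw L x c s t : ℚ) = (((cden L : ℚ) • lval L (vl x)) ^ c) s t := by
  induction c generalizing t with
  | zero =>
    rw [pw, pow_zero, Matrix.one_apply]
    simp only [Fin.ext_iff]
    split_ifs <;> simp
  | succ c ih =>
    rw [pw, ← List.sum_toFinset _ List.nodup_range, List.toFinset_range, Finset.sum_range,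
      Int.cast_sum, pow_succ, Matrix.mul_apply]
    apply Finset.sum_congr rfl
    intro u _
    rw [Int.cast_mul, ih, e1_cast]

/-- the test for one element -/
lemma test_iff (L : Inp) (x : List ℕ) (c : ℕ) :
    grk (L.length + 1) (dim L * dim L) (gv L x c) ≤ grk L.length (dim L * dim L) (gv L x c) ↔
      lval L (vl x) ^ c ∈ spn L := by
  rw [grk_succ]
  have h1 : ∀ r < L.length, rw' (dim L * dim L) (gv L x c) r =
      (cden L : ℚ) • vec (dim L) (mat L r) := by
    intro r hr
    funext q
    rw [rw', gv, if_pos hr, ient_cast]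
    rfl
  have h2 : rw' (dim L * dim L) (gv L x c) L.length =
      ((cden L : ℚ) ^ c) • vec (dim L) (lval L (vl x) ^ c) := by
    funext q
    rw [rw', gv, if_neg (lt_irrefl _)]
    have e2 := pw_cast L x c q.divNat q.modNat
    rw [Fin.coe_divNat, Fin.coe_modNat] at e2
    rw [e2, smul_pow]
    rfl
  have h3 : span ℚ (rw' (dim L * dim L) (gv L x c) '' Set.Iio L.length) =
      (spn L).map (vec (dim L)) := by
    rw [spn, map_span]
    apply le_antisymm
    · rw [span_le]
      rintro _ ⟨r, hr, rfl⟩
      rw [h1 r hr]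
      exact Submodule.smul_mem _ _ (subset_span ⟨_, ⟨⟨r, hr⟩, rfl⟩, rfl⟩)
    · rw [span_le]
      rintro _ ⟨_, ⟨r, rfl⟩, rfl⟩
      have h4 : vec (dim L) (mat L r) = (cden L : ℚ)⁻¹ • rw' (dim L * dim L) (gv L x c) r := by
        rw [h1 r r.2, smul_smul, inv_mul_cancel₀ (cden_ne L), one_smul]
      show vec (dim L) (mat L r) ∈ _
      rw [h4]
      exact Submodule.smul_mem _ _ (subset_span ⟨r, r.2, rfl⟩)
  rw [h2, h3, Submodule.smul_mem_iff _ (pow_ne_zero _ (cden_ne L))]
  constructor
  · rintro ⟨M, hM, hMv⟩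
    rwa [← vec_inj _ hMv]
  · intro h
    exact ⟨_, h, rfl⟩

lemma lval_mem (L : Inp) (y : ℕ → ℚ) : lval L y ∈ spn L := by
  rw [lval_cmb]
  exact Submodule.sum_mem _ fun l _ =>
    Submodule.smul_mem _ _ (Submodule.subset_span ⟨l, rfl⟩)

lemma tst_iff (d : ℕ) (L : Inp) : tst d L = true ↔ Closed (d + 1) L := by
  simp only [tst, List.all_eq_true, decide_eq_true_eq, test_iff]
  constructor
  · intro h X hX
    obtain ⟨z, rfl⟩ := (Submodule.mem_span_range_iff_exists_fun ℚ).1 hX
    refine pow_test (d + 1) (fun i : Fin L.length => mat L i)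
      ((Finset.range (nb d L + 1)).image fun v : ℕ => (v : ℚ)) ?_ (spn L) ?_ z
    · rw [Finset.card_image_of_injective _ Nat.cast_injective, Finset.card_range]
      unfold nb
      omega
    · intro w h1 h2
      have hv0 : ∀ l : ℕ, vl (List.replicate L.length 0) l = 0 := by
        intro l
        rw [vl]
        by_cases hl : l < L.length
        · rw [List.getD_eq_getElem _ _ (by simpa using hl)]
          simp
        · rw [List.getD_eq_default _ _ (by simpa using hl)]
          simp
      obtain ⟨y, hy, hyw⟩ := exists_nbr d L (d + 1) (List.replicate L.length 0) (by simp) w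
        (fun l => by rw [hv0]; exact h1 l) (by
          obtain ⟨s, hs, hs'⟩ := h2
          exact ⟨s, hs, fun l hl => by rw [hv0]; exact hs' l hl⟩)
      have h3 := h y hy
      rw [lval_cmb, show (fun i : Fin L.length => vl y i) = w from funext hyw] at h3
      exact h3
  · intro h x _
    exact h _ (lval_mem L _)

/-- **The decision problem is in P.** -/
theorem inP (d : ℕ) (hd : 1 ≤ d) : InP fun L : Inp => Closed (d + 1) L ∧ (lpol L).det = 0 := by
  refine ⟨alg d, pt_alg d, fun L => ?_⟩
  rw [alg, Bool.and_eq_true, decide_eq_true_eq, tst_iff]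
  refine and_congr_right fun h => ?_
  rw [h.singular hd, det_eq_zero_iff, grk_eq]
  have e : (Matrix.of fun i j : Fin (dim L) => (e1 L (sol d L) i j : ℚ)) =
      (cden L : ℚ) • lval L (vl (sol d L)) := by
    ext i j
    rw [Matrix.of_apply, e1_cast]
  rw [e, rank_smul' (cden_ne L)]

end Pool.Agent.L5helper49.PW
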