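import Pool.Agent.L5helper49.PW.Main
import Pool.Agent.L5helper60.SR.Sharp

set_option autoImplicit false

/-!
# Examples, the maximum rank, and the noncommutative rank
-/

namespace Pool.Agent.L5helper49.PW

open Module Submodule Matrix

section general

variable {K : Type*} [Field K]

/-- The space is closed under `X ↦ X ^ m`. -/
def PowClosed {n : ℕ} (m : ℕ) (𝓛 : Submodule K (Matrix (Fin n) (Fin n) K)) : Prop :=
  ∀ X ∈ 𝓛, X ^ m ∈ 𝓛

/-- No change of at most `d` coordinates of `x` to values in `S` makes the rank of `M (x) ^ n`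
larger, where `M (x) = ∑ x_l A_l`. -/
def LocOpt {n k : ℕ} (d : ℕ) (A : Fin k → Matrix (Fin n) (Fin n) K) (S : Finset K)
    (x : Fin k → K) : Prop :=
  ∀ y : Fin k → K, (∀ l, y l = x l ∨ y l ∈ S) → {l | y l ≠ x l}.ncard ≤ d →
    (cmb A y ^ n).rank ≤ (cmb A x ^ n).rank

/-- The space of all `X` with `B_i X = ε_i Xᵀ B_i` and `X C_j = ω_j C_j X`. -/
def adj {n : ℕ} {ι κ : Type} (B : ι → Matrix (Fin n) (Fin n) K) (ε : ι → K)
    (C : κ → Matrix (Fin n) (Fin n) K) (ω : κ → K) : Submodule K (Matrix (Fin n) (Fin n) K) where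
  carrier := {X | (∀ i, B i * X = ε i • (Xᵀ * B i)) ∧ ∀ j, X * C j = ω j • (C j * X)}
  zero_mem' := by simp
  add_mem' := by
    intro X Y hX hY
    refine ⟨fun i => ?_, fun j => ?_⟩
    · rw [mul_add, hX.1, hY.1, transpose_add, add_mul, smul_add]
    · rw [add_mul, hX.2, hY.2, mul_add, smul_add]
  smul_mem' := by
    intro c X hX
    refine ⟨fun i => ?_, fun j => ?_⟩
    · rw [mul_smul_comm, hX.1, transpose_smul, smul_mul_assoc, smul_comm]
    · rw [smul_mul_assoc, hX.2, mul_smul_comm, smul_comm]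

/-- The matrix `[[0, M], [0, 0]]`. -/
def corner {n : ℕ} (M : Matrix (Fin n) (Fin n) K) : Matrix (Fin n ⊕ Fin n) (Fin n ⊕ Fin n) K :=
  fromBlocks 0 M 0 0

lemma adj_pow {n : Type*} [Fintype n] [DecidableEq n] {B X : Matrix n n K} {ε : K}
    (h : B * X = ε • (Xᵀ * B)) (c : ℕ) : B * X ^ c = ε ^ c • ((X ^ c)ᵀ * B) := by
  induction c with
  | zero => simp
  | succ c ih =>
    rw [pow_succ, ← mul_assoc, ih, smul_mul_assoc, mul_assoc, h, mul_smul_comm, smul_smul,
      ← pow_succ, transpose_mul, transpose_pow, ← mul_assoc, ← pow_succ, ← pow_succ']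

lemma comm_pow {n : Type*} [Fintype n] [DecidableEq n] {D X : Matrix n n K} {ω : K}
    (h : X * D = ω • (D * X)) (c : ℕ) : X ^ c * D = ω ^ c • (D * X ^ c) := by
  induction c with
  | zero => simp
  | succ c ih =>
    rw [pow_succ, mul_assoc, h, mul_smul_comm, ← mul_assoc, ih, smul_mul_assoc, smul_smul,
      mul_assoc, ← pow_succ', ← pow_succ]

lemma adj_closed {n : ℕ} {ι κ : Type} (m : ℕ) (B : ι → Matrix (Fin n) (Fin n) K) (ε : ι → K)
    (C : κ → Matrix (Fin n) (Fin n) K) (ω : κ → K) (hε : ∀ i, ε i ^ m = ε i)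
    (hω : ∀ j, ω j ^ m = ω j) : PowClosed m (adj B ε C ω) := by
  intro X hX
  refine ⟨fun i => ?_, fun j => ?_⟩
  · rw [adj_pow (hX.1 i), hε]
  · rw [comm_pow (hX.2 j), hω]

lemma rank_corner {n : ℕ} (M : Matrix (Fin n) (Fin n) K) : (corner M).rank = M.rank := by
  rw [corner]
  obtain ⟨ι, hι⟩ : ∃ ι : (Fin n → K) →ₗ[K] (Fin n ⊕ Fin n → K), ∀ w, ι w = Sum.elim w 0 := by
    refine ⟨{ toFun := fun w => Sum.elim w 0, map_add' := ?_, map_smul' := ?_ }, fun w => rfl⟩
    · intro u v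
      ext i
      rcases i with i | i <;> simp
    · intro c u
      ext i
      rcases i with i | i <;> simp
  have hinj : Function.Injective ι := by
    intro u v huv
    rw [hι, hι] at huv
    funext i
    exact congrFun huv (Sum.inl i)
  have h1 : LinearMap.range (fromBlocks 0 M 0 0 :
      Matrix (Fin n ⊕ Fin n) (Fin n ⊕ Fin n) K).mulVecLin =
      (LinearMap.range M.mulVecLin).map ι := by
    ext w
    constructor
    · rintro ⟨u, rfl⟩
      refine ⟨M.mulVec (u ∘ Sum.inr), ⟨_, rfl⟩, ?_⟩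
      rw [hι, mulVecLin_apply, fromBlocks_mulVec]
      simp
    · rintro ⟨_, ⟨u, rfl⟩, rfl⟩
      refine ⟨Sum.elim 0 u, ?_⟩
      rw [hι, mulVecLin_apply, fromBlocks_mulVec, mulVecLin_apply]
      simp
  rw [rank, rank, h1]
  exact (Submodule.equivMapOfInjective ι hinj _).finrank_eq.symm

lemma cmb_corner {n k : ℕ} (A : Fin k → Matrix (Fin n) (Fin n) K) (x : Fin k → K) :
    cmb (fun i => corner (A i)) x = corner (cmb A x) := by
  ext i j
  rcases i with i | i <;> rcases j with j | j <;> simp [cmb, corner, Matrix.sum_apply]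

lemma corner_sq {n : ℕ} (M : Matrix (Fin n) (Fin n) K) : corner M ^ 2 = 0 := by
  rw [corner, sq, fromBlocks_multiply]
  simp

lemma loc_opt [CharZero K] {n k m : ℕ} (hm : 2 ≤ m) {A : Fin k → Matrix (Fin n) (Fin n) K}
    (hA : PowClosed m (Submodule.span K (Set.range A))) {S : Finset K} (hS : n < S.card)
    {x : Fin k → K} (h0 : LocOpt (m - 1) A S x) (hx : (cmb A x).det = 0) (y : Fin k → K) :
    (cmb A y).det = 0 := by
  refine main (m - 1) (by omega) A ?_ x S (by rwa [Fintype.card_fin]) ?_ hx y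
  · intro X hX
    rw [Nat.sub_add_cancel (by omega)]
    exact hA X hX
  · rintro z h1 ⟨s, hs, h2⟩
    rw [Fintype.card_fin]
    refine h0 z h1 ?_
    refine le_trans ?_ hs
    rw [← Set.ncard_coe_finset]
    apply Set.ncard_le_ncard _ (Finset.finite_toSet s)
    intro l hl
    by_contra h3
    exact hl (h2 l h3)

end general

/-- the matrices of the cross products with the unit vectors -/
def sk (i : Fin 3) : Matrix (Fin 3) (Fin 3) ℚ :=
  ![!![0, 0, 0; 0, 0, -1; 0, 1, 0], !![0, 0, 1; 0, 0, 0; -1, 0, 0],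
    !![0, -1, 0; 1, 0, 0; 0, 0, 0]] i

lemma sk_mulVec (i : Fin 3) (u : Fin 3 → ℚ) :
    (sk i).mulVec u = Pool.Agent.L5helper60.SR.cr i u := by
  ext j
  fin_cases i <;> fin_cases j <;>
    simp [sk, Pool.Agent.L5helper60.SR.cr, Matrix.mulVec, dotProduct, Fin.sum_univ_succ]

lemma sk_cmb (x : Fin 3 → ℚ) :
    cmb sk x = !![0, -x 2, x 1; x 2, 0, -x 0; -x 1, x 0, 0] := by
  ext i j
  fin_cases i <;> fin_cases j <;> simp [cmb, sk, Fin.sum_univ_succ]

lemma sk_cube (x : Fin 3 → ℚ) :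
    cmb sk x ^ 3 = -(x 0 ^ 2 + x 1 ^ 2 + x 2 ^ 2) • cmb sk x := by
  rw [sk_cmb]
  ext i j
  fin_cases i <;> fin_cases j <;> simp [pow_succ, Matrix.mul_apply, Fin.sum_univ_succ] <;> ring

lemma sk_det (x : Fin 3 → ℚ) : (cmb sk x).det = 0 := by
  rw [sk_cmb, det_fin_three]
  simp
  ring

lemma sk_ims (U : Submodule ℚ (Fin 3 → ℚ)) :
    finrank ℚ U ≤ finrank ℚ (⨆ i, U.map (sk i).mulVecLin : Submodule ℚ (Fin 3 → ℚ)) := by
  refine (Pool.Agent.L5helper60.SR.le_cs U).trans (finrank_mono ?_)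
  rw [Pool.Agent.L5helper60.SR.cs, span_le]
  rintro _ ⟨i, u, hu, rfl⟩
  rw [← sk_mulVec]
  exact mem_iSup_of_mem i ⟨u, hu, rfl⟩

end Pool.Agent.L5helper49.PW
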