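import Pool.Agent.L5helper49.PW.Nil
import Pool.Agent.L5helper49.PW.Newton

set_option autoImplicit false

/-!
# Local optimality with respect to changes of `d` coordinates
-/

namespace Pool.Agent.L5helper49.PW

open Matrix Polynomial

section deg

variable {K : Type*} [Field K] {σ : Type*}

/-- all coefficients have total degree at most `d` -/
def DB (d : ℕ) (p : (MvPolynomial σ K)[X]) : Prop := ∀ c, (p.coeff c).totalDegree ≤ d

lemma DB.add {d : ℕ} {p q : (MvPolynomial σ K)[X]} (hp : DB d p) (hq : DB d q) : DB d (p + q) := by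
  intro c
  rw [coeff_add]
  exact (MvPolynomial.totalDegree_add _ _).trans (max_le (hp c) (hq c))

lemma DB.zero (d : ℕ) : DB d (0 : (MvPolynomial σ K)[X]) := by
  intro c
  rw [coeff_zero, MvPolynomial.totalDegree_zero]
  exact Nat.zero_le _

lemma DB.sum {d : ℕ} {ι : Type*} (s : Finset ι) (p : ι → (MvPolynomial σ K)[X])
    (hp : ∀ i ∈ s, DB d (p i)) : DB d (∑ i ∈ s, p i) := by
  classical
  induction s using Finset.induction_on with
  | empty => exact DB.zero d
  | insert a s ha ih =>
    rw [Finset.sum_insert ha]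
    exact (hp _ (Finset.mem_insert_self _ _)).add
      (ih fun i hi => hp i (Finset.mem_insert_of_mem hi))

lemma DB.mul {d d' : ℕ} {p q : (MvPolynomial σ K)[X]} (hp : DB d p) (hq : DB d' q) :
    DB (d + d') (p * q) := by
  intro c
  rw [coeff_mul]
  refine (MvPolynomial.totalDegree_finsetSum _ _).trans (Finset.sup_le ?_)
  intro x _
  exact (MvPolynomial.totalDegree_mul _ _).trans (add_le_add (hp _) (hq _))

lemma DB.one : DB 0 (1 : (MvPolynomial σ K)[X]) := by
  intro c
  rw [coeff_one]
  split_ifs
  · rw [MvPolynomial.totalDegree_one]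
  · rw [MvPolynomial.totalDegree_zero]

lemma DB.prod {ι : Type*} (s : Finset ι) (p : ι → (MvPolynomial σ K)[X])
    (hp : ∀ i ∈ s, DB 1 (p i)) : DB s.card (∏ i ∈ s, p i) := by
  classical
  induction s using Finset.induction_on with
  | empty => exact DB.one
  | insert a s ha ih =>
    rw [Finset.prod_insert ha, Finset.card_insert_of_notMem ha, add_comm]
    exact (hp _ (Finset.mem_insert_self _ _)).mul
      (ih fun i hi => hp i (Finset.mem_insert_of_mem hi))

lemma DB.det {n : Type*} [Fintype n] [DecidableEq n] (M : Matrix n n (MvPolynomial σ K)[X])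
    (hM : ∀ i j, DB 1 (M i j)) : DB (Fintype.card n) M.det := by
  rw [det_apply']
  apply DB.sum
  intro τ _
  have h1 : DB 0 (((Equiv.Perm.sign τ : ℤˣ) : ℤ) : (MvPolynomial σ K)[X]) := by
    rcases Int.units_eq_one_or (Equiv.Perm.sign τ) with h | h
    · rw [h]
      simpa using DB.one (K := K) (σ := σ)
    · rw [h]
      intro c
      have := DB.one (K := K) (σ := σ) c
      simpa using this
  have h2 := DB.prod Finset.univ (fun i => M (τ i) i) (fun i _ => hM _ _)
  have h3 := h1.mul h2
  rwa [zero_add] at h3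

end deg

section mono

variable {K : Type*} [Field K] {σ : Type*} [Fintype σ] [DecidableEq σ]

/-- keep only the variables in `s` -/
noncomputable def keep (s : Finset σ) : MvPolynomial σ K →ₐ[K] MvPolynomial σ K :=
  MvPolynomial.aeval fun l => if l ∈ s then MvPolynomial.X l else 0

lemma keep_monomial (s : Finset σ) (m : σ →₀ ℕ) (c : K) :
    keep s (MvPolynomial.monomial m c) =
      if (∀ l, l ∉ s → m l = 0) then MvPolynomial.monomial m c else 0 := by
  rw [keep, MvPolynomial.aeval_monomial, Finsupp.prod_fintype _ _ (fun _ => pow_zero _)]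
  split_ifs with h
  · rw [MvPolynomial.monomial_eq, Finsupp.prod_fintype _ _ (fun _ => pow_zero _)]
    congr 1
    apply Finset.prod_congr rfl
    intro l _
    split_ifs with h1
    · rfl
    · rw [h l h1, pow_zero, pow_zero]
  · push Not at h
    obtain ⟨l, h1, h2⟩ := h
    rw [Finset.prod_eq_zero (Finset.mem_univ l), mul_zero]
    rw [if_neg h1, zero_pow h2]

lemma coeff_keep (s : Finset σ) (p : MvPolynomial σ K) (m : σ →₀ ℕ)
    (hm : ∀ l, l ∉ s → m l = 0) :
    (keep s p).coeff m = p.coeff m := by
  induction p using MvPolynomial.induction_on' with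
  | monomial u a =>
    rw [keep_monomial]
    split_ifs with h
    · rfl
    · rw [MvPolynomial.coeff_zero, MvPolynomial.coeff_monomial, if_neg]
      intro h1
      apply h
      rw [h1]
      exact hm
  | add p q hp hq => rw [map_add, MvPolynomial.coeff_add, MvPolynomial.coeff_add, hp, hq]

lemma totalDegree_keep (s : Finset σ) (p : MvPolynomial σ K) :
    (keep s p).totalDegree ≤ p.totalDegree := by
  rw [MvPolynomial.totalDegree]
  refine Finset.sup_le ?_
  intro m hm
  by_cases h : ∀ l, l ∉ s → m l = 0
  · apply MvPolynomial.le_totalDegree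
    rw [MvPolynomial.mem_support_iff] at hm ⊢
    rwa [coeff_keep s p m h] at hm
  · exfalso
    rw [MvPolynomial.mem_support_iff] at hm
    apply hm
    clear hm
    induction p using MvPolynomial.induction_on' with
    | monomial u a =>
      rw [keep_monomial]
      split_ifs with h1
      · rw [MvPolynomial.coeff_monomial, if_neg]
        intro h2
        rw [h2] at h1
        exact h h1
      · rfl
    | add p q hp hq => rw [map_add, MvPolynomial.coeff_add, hp, hq, add_zero]

lemma eval_keep (s : Finset σ) (p : MvPolynomial σ K) (z : σ → K) :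
    MvPolynomial.eval z (keep s p) =
      MvPolynomial.eval (fun l => if l ∈ s then z l else 0) p := by
  induction p using MvPolynomial.induction_on with
  | C a => simp [keep]
  | add p q hp hq => rw [map_add, map_add, map_add, hp, hq]
  | mul_X p l hp =>
    rw [map_mul, map_mul, map_mul, hp]
    congr 1
    rw [keep, MvPolynomial.aeval_X, MvPolynomial.eval_X]
    split_ifs
    · rw [MvPolynomial.eval_X]
    · rw [map_zero]

/-- a polynomial that vanishes on a grid has no monomials with the variables of the grid -/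
lemma coeff_eq_zero_of_grid (s : Finset σ) (p : MvPolynomial σ K) (T : σ → Finset K) (N : ℕ)
    (hN : p.totalDegree ≤ N) (hT : ∀ l, N < (T l).card)
    (h0 : ∀ z : σ → K, (∀ l, z l ∈ T l) →
      MvPolynomial.eval (fun l => if l ∈ s then z l else 0) p = 0)
    (m : σ →₀ ℕ) (hm : ∀ l, l ∉ s → m l = 0) : p.coeff m = 0 := by
  rw [← coeff_keep s p m hm]
  have h1 : keep s p = 0 := by
    apply MvPolynomial.eq_zero_of_eval_zero_at_prod_finset _ T
    · intro l
      exact ((MvPolynomial.degreeOf_le_totalDegree _ _).trans (totalDegree_keep s p)).trans_lt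
        (hN.trans_lt (hT l))
    · intro z hz
      rw [eval_keep]
      exact h0 z hz
  rw [h1, MvPolynomial.coeff_zero]

omit [Fintype σ] [DecidableEq σ] in
lemma card_support (m : σ →₀ ℕ) : m.support.card ≤ m.degree := by
  rw [Finsupp.degree_apply, Finset.card_eq_sum_ones]
  apply Finset.sum_le_sum
  intro i hi
  exact Nat.one_le_iff_ne_zero.2 (Finsupp.mem_support_iff.1 hi)

/-- substitute `z ζ` -/
noncomputable def sub (z : σ → K) : MvPolynomial σ K →ₐ[K] K[X] :=
  MvPolynomial.aeval fun l => C (z l) * X

omit [Fintype σ] [DecidableEq σ] in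
lemma sub_dvd (d : ℕ) (z : σ → K) (p : MvPolynomial σ K)
    (hp : ∀ m : σ →₀ ℕ, m.degree ≤ d → p.coeff m = 0) : (X : K[X]) ^ (d + 1) ∣ sub z p := by
  rw [p.as_sum, map_sum]
  apply Finset.dvd_sum
  intro m hm
  have h1 : d + 1 ≤ m.degree := by
    by_contra h2
    rw [MvPolynomial.mem_support_iff] at hm
    exact hm (hp m (by omega))
  rw [sub, MvPolynomial.aeval_monomial]
  apply Dvd.dvd.mul_left
  have h2 : (m.prod fun l k => (C (z l) * (X : K[X])) ^ k) =
      (m.prod fun l k => (C (z l)) ^ k) * X ^ m.degree := by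
    rw [Finsupp.prod, Finsupp.prod, Finsupp.degree_apply, ← Finset.prod_pow_eq_pow_sum,
      ← Finset.prod_mul_distrib]
    apply Finset.prod_congr rfl
    intro l _
    rw [mul_pow]
  rw [h2]
  exact Dvd.dvd.mul_left (pow_dvd_pow _ h1) _

end mono

section main

variable {K : Type*} [Field K] {n : Type*} [Fintype n] [DecidableEq n]
variable {σ : Type*} [Fintype σ]

/-- the combination of the matrices with the coefficients `x` -/
def cmb (A : σ → Matrix n n K) (x : σ → K) : Matrix n n K := ∑ l, x l • A l

/-- the generic element -/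
noncomputable def gen (A : σ → Matrix n n K) (x : σ → K) : Matrix n n (MvPolynomial σ K) :=
  (cmb A x).map MvPolynomial.C + ∑ l, (MvPolynomial.X l : MvPolynomial σ K) • (A l).map MvPolynomial.C

lemma gen_eval (A : σ → Matrix n n K) (x z : σ → K) :
    (gen A x).map (MvPolynomial.eval z) = cmb A (fun l => x l + z l) := by
  ext i j
  simp only [gen, cmb, Matrix.map_apply, Matrix.add_apply, Matrix.sum_apply, Matrix.smul_apply,
    smul_eq_mul, map_add, map_sum, map_mul, MvPolynomial.eval_C, MvPolynomial.eval_X, add_mul,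
    Finset.sum_add_distrib]

lemma gen_sub (A : σ → Matrix n n K) (x z : σ → K) :
    (gen A x).map (sub z) = (cmb A x).map C + (X : K[X]) • (cmb A z).map C := by
  ext i j : 2
  simp only [gen, cmb, Matrix.map_apply, Matrix.add_apply, Matrix.sum_apply, Matrix.smul_apply,
    smul_eq_mul, map_add, map_sum, map_mul, sub, MvPolynomial.aeval_X, Finset.mul_sum,
    MvPolynomial.aeval_C, Polynomial.algebraMap_eq]
  congr 2
  apply Finset.sum_congr rfl
  intro l _
  ring

lemma DB_gen (A : σ → Matrix n n K) (x : σ → K) :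
    DB (Fintype.card n) (charpolyRev (gen A x)) := by
  rw [charpolyRev]
  apply DB.det
  intro i j
  rw [Matrix.sub_apply, Matrix.smul_apply, Matrix.map_apply, sub_eq_add_neg]
  apply DB.add
  · intro c
    have h1 : ((1 : Matrix n n (MvPolynomial σ K)[X]) i j).coeff c =
        if i = j then (if c = 0 then 1 else 0) else 0 := by
      rw [Matrix.one_apply]
      split_ifs with h h' h'
      · rw [h', coeff_one_zero]
      · rw [coeff_one, if_neg h']
      · rw [coeff_zero]
    rw [h1]
    split_ifs <;> simp
  · intro c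
    rw [coeff_neg, MvPolynomial.totalDegree_neg, smul_eq_mul, mul_comm, coeff_C_mul, coeff_X]
    have h2 : (gen A x i j).totalDegree ≤ 1 := by
      rw [gen, Matrix.add_apply, Matrix.sum_apply, Matrix.map_apply]
      refine (MvPolynomial.totalDegree_add _ _).trans (max_le ?_ ?_)
      · rw [MvPolynomial.totalDegree_C]
        exact Nat.zero_le _
      · refine (MvPolynomial.totalDegree_finsetSum _ _).trans (Finset.sup_le ?_)
        intro l _
        rw [Matrix.smul_apply, Matrix.map_apply, smul_eq_mul]
        refine (MvPolynomial.totalDegree_mul _ _).trans ?_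
        rw [MvPolynomial.totalDegree_C, MvPolynomial.totalDegree_X]
    split_ifs
    · rwa [mul_one]
    · rw [mul_zero, MvPolynomial.totalDegree_zero]
      exact Nat.zero_le _

/-- The coefficients above the degree of the potential vanish to order `d + 1`. -/
lemma high_order [DecidableEq σ] (d : ℕ) (A : σ → Matrix n n K) (x : σ → K) (S : Finset K)
    (hS : Fintype.card n < S.card)
    (h0 : ∀ y : σ → K, (∀ l, y l = x l ∨ y l ∈ S) →
      (∃ s : Finset σ, s.card ≤ d ∧ ∀ l ∉ s, y l = x l) →
      (charpolyRev (cmb A y)).natDegree ≤ (charpolyRev (cmb A x)).natDegree) (z : σ → K) {c : ℕ}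
    (hc : (charpolyRev (cmb A x)).natDegree < c) :
    (X : K[X]) ^ (d + 1) ∣
      (charpolyRev ((cmb A x).map C + (X : K[X]) • (cmb A z).map C)).coeff c := by
  classical
  rw [← gen_sub]
  have e1 : (gen A x).map (sub z) = (gen A x).map (sub z : MvPolynomial σ K →+* K[X]) := rfl
  rw [e1, rev_map, coeff_map]
  apply sub_dvd
  intro m hm
  refine coeff_eq_zero_of_grid m.support _ (fun l => S.image fun s => s - x l) (Fintype.card n)
    (DB_gen A x c) ?_ ?_ m (fun l hl => Finsupp.notMem_support_iff.1 hl)
  · intro l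
    rw [Finset.card_image_of_injective]
    · exact hS
    · intro s t h
      simpa using h
  · intro z hz
    have e2 : ∀ w : σ → K, MvPolynomial.eval w ((charpolyRev (gen A x)).coeff c) =
        (charpolyRev (cmb A fun l => x l + w l)).coeff c := by
      intro w
      rw [← gen_eval]
      have e3 : (gen A x).map (MvPolynomial.eval w) =
        (gen A x).map (MvPolynomial.eval w : MvPolynomial σ K →+* K) := rfl
      rw [e3, rev_map, coeff_map]
    rw [e2]
    apply coeff_eq_zero_of_natDegree_lt
    refine lt_of_le_of_lt ?_ hc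
    apply h0
    · intro l
      split_ifs
      · obtain ⟨s, hs, hs'⟩ := Finset.mem_image.1 (hz l)
        right
        rw [← hs']
        simpa using hs
      · left
        rw [add_zero]
    · refine ⟨m.support, (card_support m).trans hm, fun l hl => ?_⟩
      rw [if_neg hl, add_zero]

/-- **Local optimality kills the traces.** -/
theorem trace_zero [DecidableEq σ] (d : ℕ) (hd : 1 ≤ d) (A : σ → Matrix n n K) (x : σ → K)
    (S : Finset K) (hS : Fintype.card n < S.card)
    (h0 : ∀ y : σ → K, (∀ l, y l = x l ∨ y l ∈ S) →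
      (∃ s : Finset σ, s.card ≤ d ∧ ∀ l ∉ s, y l = x l) →
      (charpolyRev (cmb A y)).natDegree ≤ (charpolyRev (cmb A x)).natDegree)
    (e : Matrix n n K) (he : e * e = e) (hc : Commute e (cmb A x))
    (hn : IsNilpotent ((1 - e) * cmb A x)) (z : σ → K)
    (hz : cmb A z = (1 - e) * cmb A z * (1 - e)) :
    (cmb A z ^ d).trace = 0 := by
  obtain ⟨M, hM⟩ : ∃ M, M = cmb A x := ⟨_, rfl⟩
  obtain ⟨Z, hZ⟩ : ∃ Z, Z = cmb A z := ⟨_, rfl⟩
  have h3 := fun c hc => high_order d A x S hS h0 z (c := c) hc
  rw [← hM] at hc hn h3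
  rw [← hM] at h0
  rw [← hZ] at hz h3
  rw [← hZ]
  clear h0
  have heg : e * (1 - e) = 0 := by rw [mul_sub, mul_one, he, sub_self]
  -- the factorisation
  have f1 : charpolyRev M = charpolyRev (e * M) := by
    have a1 : (e * M) * ((1 - e) * M) = 0 := by
      rw [hc.eq, mul_assoc, ← mul_assoc e, heg, zero_mul, mul_zero]
    have a2 : e * M + (1 - e) * M = M := by rw [← add_mul]; simp
    have a3 := rev_add a1
    rw [a2, rev_nil hn, mul_one] at a3
    exact a3
  obtain ⟨D, hD⟩ : ∃ D, D = charpolyRev (((1 - e) * M).map C + (X : K[X]) • Z.map C) := ⟨_, rfl⟩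
  have f2 : charpolyRev (M.map C + (X : K[X]) • Z.map C) =
      (charpolyRev (e * M)).map C * D := by
    have a1 : (e * M) * ((1 - e) * M) = 0 := by
      rw [hc.eq, mul_assoc, ← mul_assoc e, heg, zero_mul, mul_zero]
    have a2 : (e * M) * Z = 0 := by
      rw [hc.eq, hz, mul_assoc, mul_assoc (1 - e), ← mul_assoc e, heg, zero_mul, mul_zero]
    have a3 : M.map C + (X : K[X]) • Z.map C =
        (e * M).map C + (((1 - e) * M).map C + (X : K[X]) • Z.map C) := by
      rw [← add_assoc]
      congr 1
      have a4 : e * M + (1 - e) * M = M := by rw [← add_mul]; simp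
      have a5 : (e * M).map C + ((1 - e) * M).map C = (e * M + (1 - e) * M).map C := by
        apply Matrix.ext
        intro i j
        rw [Matrix.add_apply, Matrix.map_apply, Matrix.map_apply, Matrix.map_apply,
          Matrix.add_apply, map_add]
      rw [a5, a4]
    rw [a3, rev_add, rev_map, hD]
    rw [mul_add, mul_smul_comm, ← Matrix.map_mul, ← Matrix.map_mul, a1, a2]
    ext i j : 2
    simp
  rw [f2] at h3
  rw [f1] at h3
  obtain ⟨p, hp⟩ : ∃ p, p = charpolyRev (e * M) := ⟨_, rfl⟩
  rw [← hp] at h3
  have hp0 : p ≠ 0 := by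
    intro h4
    have h5 := eval_charpolyRev (M := e * M)
    rw [← hp, h4, eval_zero] at h5
    exact zero_ne_one h5
  have key : ∀ j, 1 ≤ j → (X : K[X]) ^ (d + 1) ∣ D.coeff j := by
    have b1 : ∀ k j, 1 ≤ j → D.natDegree + 1 ≤ j + k → (X : K[X]) ^ (d + 1) ∣ D.coeff j := by
      intro k
      induction k with
      | zero =>
        intro j _ hj
        rw [coeff_eq_zero_of_natDegree_lt (by omega)]
        exact dvd_zero _
      | succ k ih =>
        intro j hj hj'
        have b2 := h3 (p.natDegree + j) (by omega)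
        rw [coeff_mul, ← Finset.add_sum_erase _ _ (a := (p.natDegree, j))
          (by rw [Finset.HasAntidiagonal.mem_antidiagonal])] at b2
        have b3 : (X : K[X]) ^ (d + 1) ∣ ∑ x ∈ (Finset.HasAntidiagonal.antidiagonal
            (p.natDegree + j)).erase (p.natDegree, j),
              (p.map C).coeff x.1 * D.coeff x.2 := by
          apply Finset.dvd_sum
          rintro ⟨u, v⟩ huv
          rw [Finset.mem_erase, Finset.HasAntidiagonal.mem_antidiagonal] at huv
          obtain ⟨h5, h6⟩ := huv
          simp only at h6 ⊢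
          rcases Nat.lt_or_ge p.natDegree u with h7 | h7
          · rw [coeff_map, coeff_eq_zero_of_natDegree_lt h7, map_zero, zero_mul]
            exact dvd_zero _
          · apply Dvd.dvd.mul_left
            apply ih
            · omega
            · have h8 : u ≠ p.natDegree := by
                intro h9
                apply h5
                rw [h9, Prod.mk.injEq]
                exact ⟨rfl, by omega⟩
              omega
        have b4 := (dvd_add_left b3).1 b2
        simp only [coeff_map, coeff_natDegree] at b4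
        have b5 : IsUnit (C p.leadingCoeff) :=
          isUnit_C.2 (isUnit_iff_ne_zero.2 (leadingCoeff_ne_zero.2 hp0))
        exact (b5.dvd_mul_left).1 b4
    intro j hj
    exact b1 (D.natDegree + 1) j hj (by omega)
  -- modulo `ζ ^ (d + 1)`
  obtain ⟨N, hN⟩ : ∃ N, N = (1 - e) * M := ⟨_, rfl⟩
  rw [← hN] at hD
  obtain ⟨π, hπ⟩ : ∃ π : K[X] →+* K[X] ⧸ Ideal.span {(X : K[X]) ^ (d + 1)},
    π = Ideal.Quotient.mk _ := ⟨_, rfl⟩
  have hπ0 : ∀ q : K[X], π q = 0 ↔ (X : K[X]) ^ (d + 1) ∣ q := by
    intro q
    rw [hπ, Ideal.Quotient.eq_zero_iff_mem, Ideal.mem_span_singleton]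
  have c1 : charpolyRev ((N.map C + (X : K[X]) • Z.map C).map π) = 1 := by
    rw [rev_map, ← hD]
    ext j
    rw [coeff_map, coeff_one]
    split_ifs with hj
    · have c2 := eval_charpolyRev (M := N.map C + (X : K[X]) • Z.map C)
      rw [← hD, ← coeff_zero_eq_eval_zero] at c2
      rw [hj, c2, map_one]
    · rw [hπ0]
      exact key j (by omega)
  have c3 := newton _ c1 (d - 1)
  rw [Nat.sub_add_cancel hd] at c3
  have c4 : ((N.map C + (X : K[X]) • Z.map C).map π) ^ d =
      ((N.map C + (X : K[X]) • Z.map C) ^ d).map π := by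
    have := map_pow (π.mapMatrix : Matrix n n K[X] →+* _) (N.map C + (X : K[X]) • Z.map C) d
    exact this.symm
  have c5 : (X : K[X]) ^ (d + 1) ∣ ((N.map C + (X : K[X]) • Z.map C) ^ d).trace := by
    rw [← hπ0, Matrix.trace, map_sum]
    rw [c4, Matrix.trace] at c3
    exact c3
  have c6 := X_pow_dvd_iff.1 c5 d (by omega)
  rw [Matrix.trace, finsetSum_coeff] at c6
  rw [Matrix.trace, ← c6]
  apply Finset.sum_congr rfl
  intro i _
  exact (top_coeff N Z d i i).2.symm

/-- **The main theorem.** -/
theorem main [DecidableEq σ] [CharZero K] (d : ℕ) (hd : 1 ≤ d) (A : σ → Matrix n n K)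
    (hcl : Clo d (Submodule.span K (Set.range A)))
    (x : σ → K) (S : Finset K) (hS : Fintype.card n < S.card)
    (h0 : ∀ y : σ → K, (∀ l, y l = x l ∨ y l ∈ S) →
      (∃ s : Finset σ, s.card ≤ d ∧ ∀ l ∉ s, y l = x l) →
      (cmb A y ^ Fintype.card n).rank ≤ (cmb A x ^ Fintype.card n).rank)
    (hx : (cmb A x).det = 0) (y : σ → K) : (cmb A y).det = 0 := by
  have hmem : ∀ y, cmb A y ∈ Submodule.span K (Set.range A) := by
    intro y
    exact Submodule.sum_mem _ fun l _ =>
      Submodule.smul_mem _ _ (Submodule.subset_span ⟨l, rfl⟩)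
  simp only [rank_pow] at h0
  obtain ⟨B, e, h₀, P, hB, h6, h5⟩ := exists_pr hd hcl (hmem x)
  have he : e ≠ 1 := by
    intro he
    have h1 := P.he
    rw [he, hB, he, one_mul, map_mul, aeval_X] at h1
    have h7 := congrArg Matrix.det h1
    rw [det_mul, det_pow, hx, zero_pow (by omega), zero_mul, det_one] at h7
    exact zero_ne_one h7
  refine P.det_eq_zero hd hcl he ?_ (hmem y)
  intro Z hZ
  obtain ⟨z, hz⟩ := (Submodule.mem_span_range_iff_exists_fun K).1 (P.peirce0 hcl hZ)
  have hz' : cmb A z = (1 - e) * Z * (1 - e) := hz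
  rw [← hz']
  apply trace_zero d hd A x S hS h0 e P.ee h6 h5 z
  rw [hz']
  have hgg : (1 - e) * (1 - e) = 1 - e := by
    have e1 : (1 - e) * (1 - e) = 1 - e - e + e * e := by noncomm_ring
    rw [e1, P.ee]
    abel
  have e2 : (1 - e) * ((1 - e) * Z * (1 - e)) * (1 - e) =
      ((1 - e) * (1 - e)) * Z * ((1 - e) * (1 - e)) := by simp only [mul_assoc]
  rw [e2, hgg]

end main

end Pool.Agent.L5helper49.PW
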