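import Pool.Agent.L5helper60.SR.Fin
import Pool.Agent.L5helper49.PW.Opt

set_option autoImplicit false

/-!
# The algorithm
-/

namespace Pool.Agent.L5helper49.PW

open Module Submodule Function
open Pool.Agent.Lib.CX Pool.Agent.Lib.helper22.CXDet
open Pool.Agent.Lib.Par (rk rk_eq pt_rk ls_opt)
open Pool.Agent.L5helper60.SR (Inp dim mat ent cden ient pt_dim pb_dim pt_ient)

/-- the dimension of the span of the first `m` rows of a table with `w` columns -/
def grk (m w : ℕ) (f : ℕ → ℕ → ℤ) : ℕ :=
  rk (tb m fun r q => ((List.range w).map fun s => f r s * f q s).sum)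

theorem grk_eq (m w : ℕ) (f : ℕ → ℕ → ℤ) :
    grk m w f = (Matrix.of fun (i : Fin m) (j : Fin w) => (f i j : ℚ)).rank := by
  let β : LinearMap.BilinForm ℚ (Fin w → ℚ) :=
    LinearMap.mk₂ ℚ (fun x y => x ⬝ᵥ y) (by intros; simp) (by intros; simp) (by intros; simp)
      (by intros; simp)
  have hp : ∀ x, x ≠ 0 → 0 < β x x := fun x hx => by
    have k : 0 ≤ x ⬝ᵥ x := Finset.sum_nonneg fun i _ => mul_self_nonneg _
    refine lt_of_le_of_ne k fun e => hx ?_
    exact dotProduct_self_eq_zero.1 e.symm
  let v : ℕ → (Fin w → ℚ) := fun r s => (f r s : ℚ)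
  have l : ∀ m f, (tb m f).length = m := by simp [tb]
  rw [grk, rk_eq (β := β) (fun x y => by simp [β, dotProduct_comm]) hp v fun i hi j hj => ?_, l]
  swap
  · rw [l] at hi hj
    rw [en_tb hi hj, ← List.sum_toFinset _ List.nodup_range, List.toFinset_range, Finset.sum_range]
    simp [β, v, dotProduct]
  rw [Matrix.rank_eq_finrank_span_row]
  have e : v '' Set.Iio m = Set.range (Matrix.of fun (i : Fin m) (j : Fin w) => (f i j : ℚ)).row := by
    ext x
    constructor
    · rintro ⟨r, hr, rfl⟩
      exact ⟨⟨r, hr⟩, rfl⟩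
    · rintro ⟨r, rfl⟩
      exact ⟨r, r.2, rfl⟩
  rw [e]

/-- an entry of the matrix for given values of the variables, times the common denominator -/
def e1 (L : Inp) (x : List ℕ) (s t : ℕ) : ℤ :=
  ((List.range L.length).map fun i => (x.getD i 0 : ℤ) * ient L i s t).sum

/-- an entry of the block matrix -/
def bk (L : Inp) (x : List ℕ) (r q : ℕ) : ℤ :=
  if r / dim L = q / dim L then e1 L x (r % dim L) (q % dim L)
  else if q / dim L = r / dim L + 1 then (if r % dim L = q % dim L then 1 else 0) else 0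

/-- the potential -/
def ps (L : Inp) (x : List ℕ) : ℕ := grk (dim L * dim L) (dim L * dim L) (bk L x)

/-- an entry of a power of the matrix `e1` -/
def pw (L : Inp) (x : List ℕ) : ℕ → ℕ → ℕ → ℤ
  | 0, s, t => if s = t then 1 else 0
  | c + 1, s, t => ((List.range (dim L)).map fun u => pw L x c s u * e1 L x u t).sum

/-- the generators as vectors, the last one is a power -/
def gv (L : Inp) (x : List ℕ) (c r q : ℕ) : ℤ :=
  if r < L.length then ient L r (q / dim L) (q % dim L) else pw L x c (q / dim L) (q % dim L)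

/-- the bound for the values of the variables and for the potential -/
def nb (d : ℕ) (L : Inp) : ℕ := dim L * dim L + 1 + d

/-- at most `c` changes of the coordinates -/
def nbr (d : ℕ) (L : Inp) : ℕ → List ℕ → List (List ℕ)
  | 0, x => [x]
  | c + 1, x => (nbr d L c x).flatMap fun y => y :: (List.range L.length).flatMap
      fun i => (List.range (nb d L + 1)).map fun v => y.set i v

/-- the test -/
def tst (d : ℕ) (L : Inp) : Bool := (nbr d L (d + 1) (List.replicate L.length 0)).all fun x =>
  decide (grk (L.length + 1) (dim L * dim L) (gv L x (d + 1)) ≤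
    grk L.length (dim L * dim L) (gv L x (d + 1)))

/-- the substitution found by the local search -/
def sol (d : ℕ) (L : Inp) : List ℕ :=
  (fun x => ((nbr d L d x).filter (ps L x < ps L ·)).headD x)^[nb d L]
    (List.replicate L.length 0)

/-- the algorithm -/
def alg (d : ℕ) (L : Inp) : Bool := tst d L && decide (grk (dim L) (dim L) (e1 L (sol d L)) < dim L)

lemma nbr_inv (d : ℕ) (L : Inp) (c : ℕ) (x : List ℕ) (h1 : x.length = L.length)
    (h2 : ∀ v ∈ x, v ≤ nb d L) : ∀ y ∈ nbr d L c x, y.length = L.length ∧ ∀ v ∈ y, v ≤ nb d L := by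
  induction c with
  | zero =>
    intro y hy
    rw [nbr, List.mem_singleton] at hy
    rw [hy]
    exact ⟨h1, h2⟩
  | succ c ih =>
    intro y hy
    simp only [nbr, List.mem_flatMap, List.mem_cons, List.mem_map, List.mem_range] at hy
    obtain ⟨z, hz, rfl | ⟨i, -, v, hv, rfl⟩⟩ := hy
    · exact ih _ hz
    · obtain ⟨h3, h4⟩ := ih z hz
      refine ⟨by simp [h3], fun u hu => ?_⟩
      rcases List.mem_or_eq_of_mem_set hu with hu | rfl
      exacts [h4 u hu, by omega]

lemma sol_inv (d : ℕ) (L : Inp) (k : ℕ) :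
    ∀ x, x = (fun x => ((nbr d L d x).filter (ps L x < ps L ·)).headD x)^[k]
        (List.replicate L.length 0) →
      x.length = L.length ∧ ∀ v ∈ x, v ≤ nb d L := by
  induction k with
  | zero =>
    rintro _ rfl
    simp
  | succ k ih =>
    rintro _ rfl
    rw [iterate_succ_apply']
    obtain ⟨h1, h2⟩ := ih _ rfl
    generalize (fun x => ((nbr d L d x).filter (ps L x < ps L ·)).headD x)^[k]
      (List.replicate L.length 0) = x at *
    rcases h : (nbr d L d x).filter (ps L x < ps L ·) with _ | ⟨y, l⟩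
    · exact ⟨h1, h2⟩
    exact nbr_inv d L d x h1 h2 y (List.mem_filter.1 (h ▸ List.mem_cons_self : y ∈ _)).1

section

variable {α : Type} [Enc α] {L : α → Inp} {i j k m w : α → ℕ} {x : α → List ℕ}

attribute [local irreducible] ent cden dim ient

@[fun_prop] lemma pt_e1 (hL : PT L) (hx : PT x) (hi : PT i) (hj : PT j) :
    PT fun a => e1 (L a) (x a) (i a) (j a) := by
  unfold e1; fun_prop

attribute [local irreducible] e1

@[fun_prop] lemma pt_bk (hL : PT L) (hx : PT x) (hi : PT i) (hj : PT j) :
    PT fun a => bk (L a) (x a) (i a) (j a) := by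
  unfold bk; fun_prop

attribute [local irreducible] bk

lemma pt_pw' (c : ℕ) : PT fun p : ((Inp × List ℕ) × ℕ) × ℕ => pw p.1.1.1 p.1.1.2 c p.1.2 p.2 := by
  induction c with
  | zero => simp only [pw]; fun_prop
  | succ c ih =>
    simp only [pw]
    apply PT.isum
    apply PT.map
    · apply PT.imul
      · exact ih.comp (f := fun p : ((Inp × List ℕ) × ℕ) × ℕ => pw p.1.1.1 p.1.1.2 c p.1.2 p.2)
          (g := fun p : (((Inp × List ℕ) × ℕ) × ℕ) × ℕ => (((p.1.1.1.1, p.1.1.1.2), p.1.1.2), p.2))
          (by fun_prop)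
      · fun_prop
    · fun_prop

@[fun_prop] lemma pt_pw (c : ℕ) (hL : PT L) (hx : PT x) (hi : PT i) (hj : PT j) :
    PT fun a => pw (L a) (x a) c (i a) (j a) :=
  (pt_pw' c).comp (g := fun a => (((L a, x a), i a), j a)) (by fun_prop)

attribute [local irreducible] pw

@[fun_prop] lemma pt_gv (c : ℕ) (hL : PT L) (hx : PT x) (hi : PT i) (hj : PT j) :
    PT fun a => gv (L a) (x a) c (i a) (j a) := by
  unfold gv; fun_prop

attribute [local irreducible] gv

@[fun_prop] lemma pt_grk {f : α → ℕ → ℕ → ℤ} (hm : PT m) (hmb : PB m) (hw : PT w) (hwb : PB w)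
    (hf : PT fun p : (α × ℕ) × ℕ => f p.1.1 p.1.2 p.2) : PT fun a => grk (m a) (w a) (f a) := by
  unfold grk
  apply pt_rk
  apply Pool.Agent.L5helper60.SR.pt_tb' hm hmb
  apply PT.isum
  apply PT.map
  · apply PT.imul
    · exact hf.comp (f := fun p : (α × ℕ) × ℕ => f p.1.1 p.1.2 p.2)
        (g := fun p : ((α × ℕ) × ℕ) × ℕ => ((p.1.1.1, p.1.1.2), p.2)) (by fun_prop)
    · exact hf.comp (f := fun p : (α × ℕ) × ℕ => f p.1.1 p.1.2 p.2)
        (g := fun p : ((α × ℕ) × ℕ) × ℕ => ((p.1.1.1, p.1.2), p.2)) (by fun_prop)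
  · fun_prop

attribute [local irreducible] grk

@[fun_prop] lemma pt_ps (hL : PT L) (hx : PT x) : PT fun a => ps (L a) (x a) := by
  unfold ps; fun_prop

@[fun_prop] lemma pt_nb (d : ℕ) (hL : PT L) : PT fun a => nb d (L a) := by unfold nb; fun_prop

@[fun_prop] lemma pb_nb (d : ℕ) (hL : PT L) : PB fun a => nb d (L a) := by unfold nb; fun_prop

attribute [local irreducible] nb ps

lemma pt_nbr' (d c : ℕ) : PT fun p : Inp × List ℕ => nbr d p.1 c p.2 := by
  induction c with
  | zero => simp only [nbr]; fun_prop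
  | succ c ih =>
    simp only [nbr]
    fun_prop

@[fun_prop] lemma pt_nbr (d c : ℕ) (hL : PT L) (hx : PT x) : PT fun a => nbr d (L a) c (x a) :=
  (pt_nbr' d c).comp (g := fun a => (L a, x a)) (by fun_prop)

attribute [local irreducible] nbr

lemma pt_tst (d : ℕ) : PT (tst d) := by
  unfold tst; fun_prop

lemma pt_sol (d : ℕ) : PT (sol d) :=
  PT.iterate (B := fun L => L.length * (3 * nb d L + 2 + 1) + 2)
    (by fun_prop) (by fun_prop) (by fun_prop) (by fun_prop) (by fun_prop) fun L k _ => by
      obtain ⟨h1, h2⟩ := sol_inv d L k _ rfl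
      exact (size_list_le fun v hv => (size_nat_mono (h2 v hv)).trans
        (size_nat_le _)).trans_eq (by rw [h1])

attribute [local irreducible] sol tst

lemma pt_alg (d : ℕ) : PT (alg d) := by
  unfold alg
  have h1 := pt_tst d
  have h2 := pt_sol d
  fun_prop

end

end Pool.Agent.L5helper49.PW
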