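import Mathlib

set_option autoImplicit false

/-!
# Spaces of matrices closed under `X ↦ X ^ (d + 1)`

The linear algebra.
-/

namespace Pool.Agent.L5helper49.PW

open Matrix Polynomial

/-! ### Expansions -/

section expand

variable {R : Type*} [Ring R]

/-- the coefficient of `s ^ k` in `(X + s Y) ^ c` -/
def E (X Y : R) : ℕ → ℕ → R
  | 0, 0 => 1
  | 0, _ + 1 => 0
  | c + 1, 0 => E X Y c 0 * X
  | c + 1, k + 1 => E X Y c (k + 1) * X + E X Y c k * Y

lemma E_zero (X Y : R) (c : ℕ) : E X Y c 0 = X ^ c := by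
  induction c with
  | zero => rw [E, pow_zero]
  | succ c ih => rw [E, ih, pow_succ]

lemma E_gt (X Y : R) (c : ℕ) : ∀ k, c < k → E X Y c k = 0 := by
  induction c with
  | zero =>
    intro k hk
    cases k with
    | zero => omega
    | succ k => rw [E]
  | succ c ih =>
    intro k hk
    cases k with
    | zero => omega
    | succ k => rw [E, ih _ (by omega), ih _ (by omega), zero_mul, zero_mul, add_zero]

lemma E_succ_one (X Y : R) (c : ℕ) : E X Y (c + 1) 1 = E X Y c 1 * X + X ^ c * Y := by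
  rw [E, E_zero]

lemma E_comm {X Y : R} (h : Commute X Y) (c : ℕ) : E X Y (c + 1) 1 = (c + 1) • (X ^ c * Y) := by
  induction c with
  | zero => rw [E_succ_one, E, zero_mul, zero_add, zero_add, one_smul]
  | succ c ih =>
    rw [E_succ_one, ih, smul_mul_assoc, mul_assoc, ← h.eq, ← mul_assoc, ← pow_succ,
      succ_nsmul _ (c + 1)]

variable {K : Type*} [Field K] [Algebra K R]

lemma expand (X Y : R) (s : K) (c : ℕ) :
    (X + s • Y) ^ c = ∑ k ∈ Finset.range (c + 1), s ^ k • E X Y c k := by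
  induction c with
  | zero => simp [E]
  | succ c ih =>
    rw [pow_succ, ih, mul_add, Finset.sum_range_succ' _ (c + 1)]
    have h1 : ∑ k ∈ Finset.range (c + 1), s ^ (k + 1) • E X Y (c + 1) (k + 1) =
        (∑ k ∈ Finset.range (c + 1), s ^ (k + 1) • E X Y c (k + 1)) * X +
          (∑ k ∈ Finset.range (c + 1), s ^ k • E X Y c k) * (s • Y) := by
      rw [Finset.sum_mul, Finset.sum_mul, ← Finset.sum_add_distrib]
      apply Finset.sum_congr rfl
      intro k _
      rw [E, smul_add, smul_mul_assoc, smul_mul_smul_comm, ← pow_succ]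
    have h2 : (∑ k ∈ Finset.range (c + 1), s ^ k • E X Y c k) * X =
        (∑ k ∈ Finset.range (c + 1), s ^ (k + 1) • E X Y c (k + 1)) * X + E X Y (c + 1) 0 := by
      rw [Finset.sum_range_succ', add_mul, pow_zero, one_smul, E]
      congr 2
      rw [Finset.sum_range_succ, E_gt X Y c (c + 1) (by omega), smul_zero, add_zero]
    rw [h1, h2, pow_zero, one_smul]
    abel

end expand

section coeff

variable {K : Type*} [Field K] [Infinite K] {V : Type*} [AddCommGroup V] [Module K V]

/-- the coefficients of a polynomial with values in a subspace are in the subspace -/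
lemma coeff_mem (𝓛 : Submodule K V) (N : ℕ) (c : ℕ → V)
    (h : ∀ s : K, ∑ k ∈ Finset.range N, s ^ k • c k ∈ 𝓛) (k : ℕ) (hk : k < N) : c k ∈ 𝓛 := by
  rw [← Submodule.Quotient.mk_eq_zero, ← Submodule.mkQ_apply,
    ← Module.forall_dual_apply_eq_zero_iff K]
  intro φ
  obtain ⟨P, hP⟩ : ∃ P : K[X], P = ∑ k ∈ Finset.range N, C (φ (𝓛.mkQ (c k))) * X ^ k := ⟨_, rfl⟩
  have h1 : P = 0 := by
    apply Polynomial.funext
    intro s
    have h2 := h s
    rw [← Submodule.Quotient.mk_eq_zero, ← Submodule.mkQ_apply] at h2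
    have h3 := congrArg φ h2
    rw [map_sum, map_sum, map_zero] at h3
    rw [hP, eval_finsetSum, eval_zero, ← h3]
    apply Finset.sum_congr rfl
    intro k _
    rw [eval_mul, eval_C, eval_pow, eval_X, map_smul, map_smul, smul_eq_mul, mul_comm]
  have h4 := congrArg (fun p => coeff p k) h1
  rw [hP] at h4
  simp only [finsetSum_coeff, coeff_C_mul, coeff_X_pow, coeff_zero, mul_ite, mul_one,
    mul_zero, Finset.sum_ite_eq, Finset.mem_range, hk, if_true] at h4
  exact h4

end coeff

section clo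

variable {K : Type*} [Field K] {n : Type*} [Fintype n] [DecidableEq n]

/-- The space `𝓛` of matrices is closed under `X ↦ X ^ (d + 1)`. -/
def Clo (d : ℕ) (𝓛 : Submodule K (Matrix n n K)) : Prop := ∀ X ∈ 𝓛, X ^ (d + 1) ∈ 𝓛

variable {d : ℕ} {𝓛 : Submodule K (Matrix n n K)}

lemma Clo.pow [CharZero K] (h : Clo d 𝓛) {X : Matrix n n K} (hX : X ∈ 𝓛) (a : ℕ) :
    X ^ (1 + a * d) ∈ 𝓛 := by
  induction a with
  | zero => simpa using hX
  | succ a ih =>
    have h1 : E X (X ^ (1 + a * d)) (d + 1) 1 ∈ 𝓛 := by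
      rcases Nat.eq_zero_or_pos d with hd | hd
      · subst hd
        rw [E_succ_one, E, zero_mul, zero_add, pow_zero, one_mul]
        exact ih
      refine coeff_mem 𝓛 (d + 2) (E X (X ^ (1 + a * d)) (d + 1)) ?_ 1 (by omega)
      intro s
      rw [← expand]
      exact h _ (𝓛.add_mem hX (𝓛.smul_mem s ih))
    rw [E_comm ((Commute.refl X).pow_right _)] at h1
    have h2 := 𝓛.smul_mem ((d + 1 : ℕ) : K)⁻¹ h1
    rw [← Nat.cast_smul_eq_nsmul K, smul_smul, inv_mul_cancel₀ (by exact_mod_cast d.succ_ne_zero),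
      one_smul, ← pow_add] at h2
    have e : 1 + (a + 1) * d = d + (1 + a * d) := by ring
    rw [e]
    exact h2

lemma Clo.poly [CharZero K] (h : Clo d 𝓛) {X : Matrix n n K} (hX : X ∈ 𝓛) (q : K[X]) :
    X * aeval (X ^ d) q ∈ 𝓛 := by
  induction q using Polynomial.induction_on' with
  | add p q hp hq =>
    rw [map_add, mul_add]
    exact 𝓛.add_mem hp hq
  | monomial m c =>
    have e : X * aeval (X ^ d) (monomial m c) = c • X ^ (1 + m * d) := by
      rw [aeval_monomial, ← Algebra.smul_def, Algebra.mul_smul_comm, ← pow_mul, ← pow_succ',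
        mul_comm d m, add_comm]
    rw [e]
    exact 𝓛.smul_mem _ (h.pow hX m)

lemma Clo.der [CharZero K] (h : Clo d 𝓛) {X Y : Matrix n n K} (hX : X ∈ 𝓛) (hY : Y ∈ 𝓛) (a : ℕ) :
    E X Y (1 + a * d) 1 ∈ 𝓛 := by
  refine coeff_mem 𝓛 (1 + a * d + 1) (E X Y (1 + a * d)) ?_ 1 (by omega)
  intro s
  rw [← expand]
  exact h.pow (𝓛.add_mem hX (𝓛.smul_mem s hY)) a

/-- The decomposition of Fitting. -/
lemma fitting (hd : 1 ≤ d) (X : Matrix n n K) : ∃ (h : K[X]) (e : Matrix n n K),
    aeval (X ^ d) (Polynomial.X * h) = e ∧ e * e = e ∧ Commute e X ∧ IsNilpotent ((1 - e) * X) := by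
  obtain ⟨h, hχ, hnd⟩ := exists_eq_pow_rootMultiplicity_mul_and_not_dvd (X ^ d).charpoly
    (X ^ d).charpoly_monic.ne_zero 0
  obtain ⟨a, ha⟩ : ∃ a, a = (X ^ d).charpoly.rootMultiplicity 0 := ⟨_, rfl⟩
  rw [← ha, C_0, sub_zero] at hχ
  rw [C_0, sub_zero] at hnd
  obtain ⟨u, v, huv⟩ : IsCoprime ((Polynomial.X : K[X]) ^ (a + 1)) h :=
    (Polynomial.irreducible_X.coprime_iff_not_dvd.2 hnd).pow_left
  have h0 : aeval (X ^ d) (Polynomial.X ^ a * h) = 0 := by
    rw [← hχ]
    exact aeval_self_charpoly _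
  obtain ⟨E, hE⟩ : ∃ E : K[X], E = u * Polynomial.X ^ (a + 1) := ⟨_, rfl⟩
  have hE1 : 1 - E = v * h := by rw [hE, sub_eq_iff_eq_add', huv]
  have hee : aeval (X ^ d) E * aeval (X ^ d) E = aeval (X ^ d) E := by
    have e1 : E * (1 - E) = (u * v * Polynomial.X) * (Polynomial.X ^ a * h) := by
      rw [hE1, hE]
      ring
    have e2 := congrArg (aeval (X ^ d)) e1
    rw [map_mul, map_mul, h0, mul_zero, map_sub, map_one, mul_sub, mul_one, sub_eq_zero] at e2
    exact e2.symm
  have hcX : ∀ r : K[X], Commute (aeval (X ^ d) r) X := by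
    intro r
    have e1 : aeval (X ^ d) r = aeval X (r.comp (Polynomial.X ^ d)) := by
      rw [aeval_comp, map_pow, aeval_X]
    rw [e1]
    have e2 : aeval X (r.comp (Polynomial.X ^ d)) * aeval X (Polynomial.X : K[X]) =
        aeval X (Polynomial.X : K[X]) * aeval X (r.comp (Polynomial.X ^ d)) := by
      rw [← map_mul, ← map_mul, mul_comm]
    rwa [aeval_X] at e2
  refine ⟨u * Polynomial.X ^ a, aeval (X ^ d) E, ?_, hee, hcX E, ?_⟩
  · rw [hE]
    congr 1
    ring
  · refine ⟨d * (a + 1), ?_⟩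
    have hc : Commute (1 - aeval (X ^ d) E) X := (Commute.one_left X).sub_left (hcX E)
    rw [hc.mul_pow, pow_mul X]
    have e1 : (1 - E) * Polynomial.X ^ (a + 1) = (v * Polynomial.X) * (Polynomial.X ^ a * h) := by
      rw [hE1]
      ring
    have e2 := congrArg (aeval (X ^ d)) e1
    rw [map_mul, map_mul, h0, mul_zero, map_sub, map_one, map_pow, aeval_X] at e2
    have e3 : ∃ k, d * (a + 1) = k + 1 := ⟨d * (a + 1) - 1, by
      have : 1 ≤ d * (a + 1) := Nat.mul_pos hd (by omega)
      omega⟩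
    obtain ⟨k, hk⟩ := e3
    rw [hk, pow_succ, mul_assoc, e2, mul_zero]

/-- polynomials without constant term -/
lemma aeval_idem {e P : Matrix n n K} (he : e * e = e) (hc : Commute e P) (h : K[X]) :
    aeval (e * P) (Polynomial.X * h) = e * aeval P (Polynomial.X * h) := by
  induction h using Polynomial.induction_on' with
  | add p q hp hq => rw [mul_add, map_add, map_add, hp, hq, mul_add]
  | monomial m c =>
    have h1 : ∀ m : ℕ, e ^ (m + 1) = e := by
      intro m
      induction m with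
      | zero => rw [zero_add, pow_one]
      | succ m ih => rw [pow_succ, ih, he]
    rw [X_mul_monomial, aeval_monomial, aeval_monomial, hc.mul_pow, h1, ← Algebra.smul_def,
      ← Algebra.smul_def, mul_smul_comm]

/-- `A` is an element of the space whose nilpotent part vanishes, and `e` is its idempotent. -/
structure Pr (d : ℕ) (𝓛 : Submodule K (Matrix n n K)) (A e : Matrix n n K) (h : K[X]) : Prop where
  hA : A ∈ 𝓛
  he : aeval (A ^ d) (Polynomial.X * h) = e
  ee : e * e = e
  eA : e * A = A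
  Ae : A * e = A

variable {A e : Matrix n n K} {h₀ : K[X]}

lemma exists_pr [CharZero K] (hd : 1 ≤ d) (h : Clo d 𝓛) {X : Matrix n n K} (hX : X ∈ 𝓛) :
    ∃ (A e : Matrix n n K) (h₀ : K[X]), Pr d 𝓛 A e h₀ ∧ A = e * X ∧ Commute e X ∧
      IsNilpotent ((1 - e) * X) := by
  obtain ⟨h₀, e, h1, h2, h3, h4⟩ := fitting hd X
  refine ⟨e * X, e, h₀, ⟨?_, ?_, h2, ?_, ?_⟩, rfl, h3, h4⟩
  · rw [← h1, (show aeval (X ^ d) (Polynomial.X * h₀) * X = X * aeval (X ^ d) (Polynomial.X * h₀) by
      rw [h1, h3.eq])]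
    exact h.poly hX _
  · obtain ⟨k, rfl⟩ := Nat.exists_eq_add_of_le' hd
    have e1 : (e * X) ^ (k + 1) = e * X ^ (k + 1) := by
      have h5 : ∀ m : ℕ, e ^ (m + 1) = e := by
        intro m
        induction m with
        | zero => rw [zero_add, pow_one]
        | succ m ih => rw [pow_succ, ih, h2]
      rw [h3.mul_pow, h5]
    rw [e1, aeval_idem h2 (h3.pow_right _), h1, h2]
  · rw [← mul_assoc, h2]
  · rw [mul_assoc, ← h3.eq, ← mul_assoc, h2]

/-- The derivative of a polynomial at `A` in the direction `Y`. -/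
noncomputable def der (A Y : Matrix n n K) (p : K[X]) : Matrix n n K :=
  (aeval (TrivSqZeroExt.inl A + TrivSqZeroExt.inr Y : TrivSqZeroExt (Matrix n n K) (Matrix n n K))
    p).snd

lemma der_fst (A Y : Matrix n n K) (p : K[X]) :
    (aeval (TrivSqZeroExt.inl A + TrivSqZeroExt.inr Y :
      TrivSqZeroExt (Matrix n n K) (Matrix n n K)) p).fst = aeval A p := by
  induction p using Polynomial.induction_on with
  | C a => simp [TrivSqZeroExt.algebraMap_eq_inl']
  | add p q hp hq => rw [map_add, map_add, TrivSqZeroExt.fst_add, hp, hq]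
  | monomial k a hk =>
    rw [pow_succ, ← mul_assoc, map_mul _ (C a * Polynomial.X ^ k), TrivSqZeroExt.fst_mul, hk,
      map_mul _ (C a * Polynomial.X ^ k), aeval_X, aeval_X]
    simp

lemma der_mul (A Y : Matrix n n K) (p q : K[X]) :
    der A Y (p * q) = aeval A p * der A Y q + der A Y p * aeval A q := by
  rw [der, map_mul, TrivSqZeroExt.snd_mul, der_fst, der_fst]
  rfl

lemma der_X (A Y : Matrix n n K) : der A Y Polynomial.X = Y := by
  rw [der, aeval_X]
  simp

lemma der_add (A Y : Matrix n n K) (p q : K[X]) : der A Y (p + q) = der A Y p + der A Y q := by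
  rw [der, map_add, TrivSqZeroExt.snd_add]
  rfl

lemma der_smul (A Y : Matrix n n K) (c : K) (p : K[X]) : der A Y (c • p) = c • der A Y p := by
  rw [der, map_smul, TrivSqZeroExt.snd_smul]
  rfl

lemma der_pow (A Y : Matrix n n K) (c : ℕ) : der A Y (Polynomial.X ^ c) = E A Y c 1 := by
  induction c with
  | zero =>
    rw [pow_zero, E, der, map_one]
    simp
  | succ c ih =>
    rw [pow_succ, der_mul, ih, der_X, E_succ_one, aeval_X, map_pow, aeval_X, add_comm]

lemma Clo.der_mem [CharZero K] (h : Clo d 𝓛) {A Y : Matrix n n K} (hA : A ∈ 𝓛) (hY : Y ∈ 𝓛)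
    (q : K[X]) : PW.der A Y (Polynomial.X * q.comp (Polynomial.X ^ d)) ∈ 𝓛 := by
  induction q using Polynomial.induction_on' with
  | add p q hp hq =>
    rw [add_comp, mul_add, der_add]
    exact 𝓛.add_mem hp hq
  | monomial m c =>
    have e : Polynomial.X * (monomial m c).comp (Polynomial.X ^ d) =
        c • (Polynomial.X : K[X]) ^ (1 + m * d) := by
      rw [monomial_comp, ← pow_mul, smul_eq_C_mul, pow_add, pow_one, mul_comm d m]
      ring
    rw [e, der_smul, der_pow]
    exact 𝓛.smul_mem _ (h.der hA hY m)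

/-- **The projection to the Peirce space.** -/
lemma Pr.peirce0 [CharZero K] (h : Clo d 𝓛) (P : Pr d 𝓛 A e h₀) {Y : Matrix n n K} (hY : Y ∈ 𝓛) :
    (1 - e) * Y * (1 - e) ∈ 𝓛 := by
  obtain ⟨H, hH⟩ : ∃ H : K[X], H = 1 - (Polynomial.X * h₀).comp (Polynomial.X ^ d) := ⟨_, rfl⟩
  have h1 : aeval A H = 1 - e := by
    rw [hH, map_sub, map_one, aeval_comp, map_pow, aeval_X, P.he]
  have h2 := h.der_mem P.hA hY ((1 - Polynomial.X * h₀) * (1 - Polynomial.X * h₀))
  have h3 : Polynomial.X * ((1 - Polynomial.X * h₀) * (1 - Polynomial.X * h₀)).comp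
      (Polynomial.X ^ d) = H * Polynomial.X * H := by
    rw [hH, mul_comp, sub_comp, one_comp]
    ring
  have h4 : A * (1 - e) = 0 := by rw [mul_sub, mul_one, P.Ae, sub_self]
  have h5 : (1 - e) * A = 0 := by rw [sub_mul, one_mul, P.eA, sub_self]
  rw [h3, der_mul, der_mul, der_X, map_mul, aeval_X, h1, h5, zero_mul, zero_add, add_mul, mul_assoc
    (PW.der A Y H), h4, mul_zero, add_zero] at h2
  exact h2

end clo

end Pool.Agent.L5helper49.PW
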