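import Pool.Agent.L5helper49.PW.Core

set_option autoImplicit false

/-!
# The elements of the space are singular
-/

namespace Pool.Agent.L5helper49.PW

open Matrix Polynomial

section

variable {K : Type*} [Field K] {n : Type*} [Fintype n] [DecidableEq n]
variable {d : ℕ} {𝓛 : Submodule K (Matrix n n K)} {A e : Matrix n n K} {h₀ : K[X]}

lemma eq_zero_of_trace [CharZero K] {f : Matrix n n K} (h1 : f * f = f) (h2 : f.trace = 0) :
    f = 0 := by
  have h3 : IsIdempotentElem (Matrix.toLin' f) := by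
    rw [IsIdempotentElem, Module.End.mul_eq_comp, ← Matrix.toLin'_mul, h1]
  have h4 := LinearMap.IsIdempotentElem.eq_zero_of_trace_eq_zero h3
    (by rw [Matrix.trace_toLin'_eq, h2])
  simpa using h4

/-- If the traces of the `d`-th powers vanish on the part `(1 - e) 𝓛 (1 - e)`, then this part
consists of nilpotent matrices. -/
lemma Pr.nil [CharZero K] (hd : 1 ≤ d) (h : Clo d 𝓛) (P : Pr d 𝓛 A e h₀)
    (ht : ∀ Z ∈ 𝓛, (((1 - e) * Z * (1 - e)) ^ d).trace = 0)
    {Z : Matrix n n K} (hZ : Z ∈ 𝓛) : IsNilpotent ((1 - e) * Z * (1 - e)) := by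
  obtain ⟨S, hS⟩ : ∃ S, S = (1 - e) * Z * (1 - e) := ⟨_, rfl⟩
  have hgg : (1 - e) * (1 - e) = 1 - e := by
    have e1 : (1 - e) * (1 - e) = 1 - e - e + e * e := by noncomm_ring
    rw [e1, P.ee]
    abel
  have hSm : S ∈ 𝓛 := by rw [hS]; exact P.peirce0 h hZ
  have hgS : (1 - e) * S = S := by rw [hS, ← mul_assoc, ← mul_assoc, hgg]
  have hSg : S * (1 - e) = S := by rw [hS, mul_assoc, hgg]
  rw [← hS]
  obtain ⟨h₁, f, h1, h2, h3, h4⟩ := fitting hd S
  obtain ⟨W, hW⟩ : ∃ W, W = S * aeval (S ^ d) h₁ := ⟨_, rfl⟩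
  have hc : Commute S (aeval (S ^ d) h₁) := by
    have e1 : aeval (S ^ d) h₁ = aeval S (h₁.comp (Polynomial.X ^ d)) := by
      rw [aeval_comp, map_pow, aeval_X]
    rw [e1]
    have e2 : aeval S (Polynomial.X : K[X]) * aeval S (h₁.comp (Polynomial.X ^ d)) =
        aeval S (h₁.comp (Polynomial.X ^ d)) * aeval S (Polynomial.X : K[X]) := by
      rw [← map_mul, ← map_mul, mul_comm]
    rwa [aeval_X] at e2
  have hWm : W ∈ 𝓛 := by rw [hW]; exact h.poly hSm h₁
  have hgW : (1 - e) * W = W := by rw [hW, ← mul_assoc, hgS]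
  have hWg : W * (1 - e) = W := by rw [hW, hc.eq, mul_assoc, hSg]
  have hcW : Commute S W := by rw [hW]; exact (Commute.refl S).mul_right hc
  have h5 : f.trace = 0 := by
    obtain ⟨k, rfl⟩ := Nat.exists_eq_add_of_le' hd
    have a1 : E S W (k + 1) 1 ∈ LinearMap.ker (Matrix.traceLinearMap n K K) := by
      refine coeff_mem _ (k + 2) (E S W (k + 1)) ?_ 1 (by omega)
      intro s
      rw [← expand]
      have a2 := ht (S + s • W) (𝓛.add_mem hSm (𝓛.smul_mem s hWm))
      rw [mul_add, add_mul, hgS, hSg, mul_smul_comm, smul_mul_assoc, hgW, hWg] at a2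
      exact a2
    rw [E_comm hcW, hW, ← mul_assoc, ← pow_succ] at a1
    have a3 : ((k + 1) • (S ^ (k + 1) * aeval (S ^ (k + 1)) h₁)).trace = 0 := a1
    rw [map_mul, aeval_X] at h1
    rw [h1, trace_smul, ← Nat.cast_smul_eq_nsmul K, smul_eq_mul, mul_eq_zero] at a3
    exact a3.resolve_left (by exact_mod_cast k.succ_ne_zero)
  rw [eq_zero_of_trace h2 h5, sub_zero, one_mul] at h4
  exact h4

/-- a nilpotent matrix on a nonzero space has a kernel -/
lemma exists_ker {g S : Matrix n n K} (hgg : g * g = g) (hg : g ≠ 0) (hgS : g * S = S)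
    (hS : IsNilpotent S) : ∃ v : n → K, v ≠ 0 ∧ g.mulVec v = v ∧ S.mulVec v = 0 := by
  by_contra hcon
  push Not at hcon
  have a1 : ∀ (k : ℕ) (w : n → K), (S ^ k).mulVec (g.mulVec w) = 0 → g.mulVec w = 0 := by
    intro k
    induction k with
    | zero => intro w hw; simpa using hw
    | succ k ih =>
      intro w hw
      by_contra hne
      have a2 : (S ^ k).mulVec (g.mulVec w) ≠ 0 := fun h0 => hne (ih w h0)
      refine hcon _ a2 ?_ ?_
      · cases k with
        | zero => rw [pow_zero, one_mulVec, mulVec_mulVec, hgg]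
        | succ k => rw [mulVec_mulVec, pow_succ', ← mul_assoc, hgS]
      · rw [mulVec_mulVec, ← pow_succ', hw]
  obtain ⟨k, hk⟩ := hS
  apply hg
  apply Matrix.mulVec_injective
  funext w
  rw [zero_mulVec]
  exact a1 k w (by rw [hk, zero_mulVec])

/-- **The main step.** -/
lemma Pr.det_step [CharZero K] (hd : 1 ≤ d) (h : Clo d 𝓛) (P : Pr d 𝓛 A e h₀) (he : e ≠ 1)
    (ht : ∀ Z ∈ 𝓛, (((1 - e) * Z * (1 - e)) ^ d).trace = 0)
    {M : Matrix n n K} (hM : M ∈ 𝓛) (hM0 : M.det ≠ 0) :
    (e * M ^ (2 * d - 1) * e + (1 - e)).det = 0 := by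
  have hgg : (1 - e) * (1 - e) = 1 - e := by
    have e1 : (1 - e) * (1 - e) = 1 - e - e + e * e := by noncomm_ring
    rw [e1, P.ee]
    abel
  have hge : (1 - e) * e = 0 := by rw [sub_mul, one_mul, P.ee, sub_self]
  have heg : e * (1 - e) = 0 := by rw [mul_sub, mul_one, P.ee, sub_self]
  -- the inverse of a power of `M`
  obtain ⟨h₁, f, h1, h2, h3, h4⟩ := fitting hd M
  have hf : f = 1 := by
    have a1 : Commute (1 - f) M := (Commute.one_left M).sub_left h3
    have a2 : IsUnit M := (Matrix.isUnit_iff_isUnit_det _).2 (isUnit_iff_ne_zero.2 hM0)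
    obtain ⟨k, hk⟩ := h4
    rw [a1.mul_pow] at hk
    have a3 : (1 - f) ^ k = 0 := ((a2.pow k).mul_left_eq_zero).1 hk
    have a4 : (1 - f) * (1 - f) = 1 - f := by
      have e1 : (1 - f) * (1 - f) = 1 - f - f + f * f := by noncomm_ring
      rw [e1, h2]
      abel
    have a5 : ∀ m : ℕ, (1 - f) ^ (m + 1) = 1 - f := by
      intro m
      induction m with
      | zero => rw [zero_add, pow_one]
      | succ m ih => rw [pow_succ, ih, a4]
    have a6 := a5 k
    rw [pow_succ, a3, zero_mul] at a6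
    exact (sub_eq_zero.1 a6.symm).symm
  rw [hf] at h1
  obtain ⟨N, hN⟩ : ∃ N, N = M * aeval (M ^ d) (h₁ * h₁) := ⟨_, rfl⟩
  have hNm : N ∈ 𝓛 := by rw [hN]; exact h.poly hM _
  have hMN : M ^ (2 * d - 1) * N = 1 := by
    have a1 : M ^ (2 * d - 1) * M = M ^ d * M ^ d := by
      rw [← pow_succ, ← pow_add]
      congr 1
      omega
    have a2 : M ^ d * M ^ d * aeval (M ^ d) (h₁ * h₁) =
        aeval (M ^ d) (Polynomial.X * h₁) * aeval (M ^ d) (Polynomial.X * h₁) := by
      rw [← map_mul]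
      nth_rw 1 2 [← aeval_X (R := K) (M ^ d)]
      rw [← map_mul, ← map_mul]
      congr 1
      ring
    rw [hN, ← mul_assoc, a1, a2, h1, one_mul]
  -- a kernel vector
  obtain ⟨v, hv0, hgv, hSv⟩ := exists_ker hgg (by rwa [Ne, sub_eq_zero, eq_comm]) (by
    rw [← mul_assoc, ← mul_assoc, hgg]) (P.nil hd h ht hNm)
  have hgw : (1 - e).mulVec (N.mulVec v) = 0 := by
    rw [← mulVec_mulVec, hgv, ← mulVec_mulVec] at hSv
    exact hSv
  have hew : e.mulVec (N.mulVec v) = N.mulVec v := by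
    rw [sub_mulVec, one_mulVec, sub_eq_zero] at hgw
    exact hgw.symm
  have hev : e.mulVec v = 0 := by rw [← hgv, mulVec_mulVec, heg, zero_mulVec]
  apply Matrix.exists_mulVec_eq_zero_iff.1
  refine ⟨N.mulVec v, ?_, ?_⟩
  · intro h0
    have h5 : (M ^ (2 * d - 1) * N).mulVec v = 0 := by
      rw [← mulVec_mulVec, h0, mulVec_zero]
    rw [hMN, one_mulVec] at h5
    exact hv0 h5
  · rw [add_mulVec, hgw, add_zero, ← mulVec_mulVec, hew, ← mulVec_mulVec, mulVec_mulVec v, hMN,
      one_mulVec, hev]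

/-- **All elements are singular.** -/
theorem Pr.det_eq_zero [CharZero K] (hd : 1 ≤ d) (h : Clo d 𝓛) (P : Pr d 𝓛 A e h₀) (he : e ≠ 1)
    (ht : ∀ Z ∈ 𝓛, (((1 - e) * Z * (1 - e)) ^ d).trace = 0)
    {Z : Matrix n n K} (hZ : Z ∈ 𝓛) : Z.det = 0 := by
  obtain ⟨G, hG⟩ : ∃ G : Matrix n n K[X], G = (Polynomial.X : K[X]) • Z.map C + A.map C := ⟨_, rfl⟩
  obtain ⟨Q₁, hQ₁⟩ : ∃ Q, Q = det (e.map C * G ^ (2 * d - 1) * e.map C + (1 - e).map C) := ⟨_, rfl⟩
  obtain ⟨Q₂, hQ₂⟩ : ∃ Q, Q = det G := ⟨_, rfl⟩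
  have evG : ∀ t : K, G.map (evalRingHom t) = A + t • Z := by
    intro t
    rw [hG]
    ext i j
    simp [add_comm]
    exact mul_comm _ _
  have evC : ∀ (t : K) (M : Matrix n n K), (M.map C).map (evalRingHom t) = M := by
    intro t M
    ext i j
    simp
  have ev2 : ∀ t : K, Q₂.eval t = (A + t • Z).det := by
    intro t
    rw [hQ₂, ← coe_evalRingHom, RingHom.map_det, ← evG]
    rfl
  have ev1 : ∀ t : K, Q₁.eval t = (e * (A + t • Z) ^ (2 * d - 1) * e + (1 - e)).det := by
    intro t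
    rw [hQ₁, ← coe_evalRingHom, RingHom.map_det, map_add, map_mul, map_mul, map_pow]
    have e1 := evG t
    have e2 := evC t
    simp only [RingHom.mapMatrix_apply] at *
    rw [e1, e2, e2]
  have h0 : Q₁ * Q₂ = 0 := by
    apply Polynomial.funext
    intro t
    rw [eval_mul, eval_zero]
    by_cases hdet : Q₂.eval t = 0
    · rw [hdet, mul_zero]
    · rw [ev1, P.det_step hd h he ht (𝓛.add_mem P.hA (𝓛.smul_mem t hZ))
        (by rwa [ev2] at hdet), zero_mul]
  have h1 : Q₁ ≠ 0 := by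
    intro h1
    have h2 := ev1 0
    rw [h1, eval_zero, zero_smul, add_zero] at h2
    have hgg : (1 - e) * (1 - e) = 1 - e := by
      have e1 : (1 - e) * (1 - e) = 1 - e - e + e * e := by noncomm_ring
      rw [e1, P.ee]
      abel
    have hAg : A * (1 - e) = 0 := by rw [mul_sub, mul_one, P.Ae, sub_self]
    have hgA : (1 - e) * A = 0 := by rw [sub_mul, one_mul, P.eA, sub_self]
    have hge : (1 - e) * e = 0 := by rw [sub_mul, one_mul, P.ee, sub_self]
    -- powers
    have a1 : ∀ k : ℕ, e * A ^ (k + 1) * e + (1 - e) = (A + (1 - e)) ^ (k + 1) := by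
      have a2 : ∀ k : ℕ, e * A ^ (k + 1) = A ^ (k + 1) := by
        intro k
        rw [pow_succ', ← mul_assoc, P.eA]
      have a3 : ∀ k : ℕ, A ^ (k + 1) * e = A ^ (k + 1) := by
        intro k
        rw [pow_succ, mul_assoc, P.Ae]
      intro k
      rw [a2, a3]
      induction k with
      | zero => rw [zero_add, pow_one, pow_one]
      | succ k ih =>
        rw [pow_succ (A + (1 - e)), ← ih, add_mul, mul_add, mul_add, hgg, hgA, ← pow_succ,
          pow_succ A k, mul_assoc, hAg, mul_zero, zero_add, add_zero]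
    obtain ⟨k, rfl⟩ := Nat.exists_eq_add_of_le' hd
    have e2 : 2 * (k + 1) - 1 = 2 * k + 1 := by omega
    rw [e2, a1, det_pow] at h2
    have h3 : (A + (1 - e)).det = 0 := by
      by_contra h4
      exact pow_ne_zero _ h4 h2.symm
    -- the inverse
    have h4 : (A + (1 - e)) * (A ^ k * aeval (A ^ (k + 1)) h₀ * e + (1 - e)) = 1 := by
      have b1 : A * (A ^ k * aeval (A ^ (k + 1)) h₀ * e) = e := by
        have := P.ee
        rw [← P.he, map_mul, aeval_X] at this
        rw [← mul_assoc, ← mul_assoc, ← pow_succ', ← P.he, map_mul, aeval_X]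
        simpa only [mul_assoc] using this
      have b2 : (1 - e) * (A ^ k * aeval (A ^ (k + 1)) h₀ * e) = 0 := by
        have b3 : Commute e (A ^ k * aeval (A ^ (k + 1)) h₀) := by
          have c1 : Commute e A := by rw [Commute, SemiconjBy, P.eA, P.Ae]
          refine (c1.pow_right k).mul_right ?_
          have c2 : Commute (aeval (A ^ (k + 1)) (Polynomial.X * h₀)) (aeval (A ^ (k + 1)) h₀) := by
            rw [Commute, SemiconjBy, ← map_mul, ← map_mul, mul_comm]
          rwa [P.he] at c2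
        rw [← b3.eq, ← mul_assoc, hge, zero_mul]
      rw [add_mul, mul_add, mul_add, b1, b2, hAg, hgg]
      abel
    have h5 := congrArg Matrix.det h4
    rw [det_mul, h3, zero_mul, det_one] at h5
    exact zero_ne_one h5
  have h2 : Q₂ = 0 := (mul_eq_zero.1 h0).resolve_left h1
  rw [← Polynomial.coeff_det_X_add_C_card Z A, ← hG, ← hQ₂, h2, coeff_zero]

end

end Pool.Agent.L5helper49.PW
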